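import Pool.Agent.H36.LC.Stm

/-! LC-BIGS (helper62) -/

set_option autoImplicit false

open Finset Filter Topology
open scoped Classical

namespace Pool.Agent.H36.LC.T

open Pool.Agent.H36.LC Pool.Agent.H36.BK

theorem bigs_geom (n : ℕ) :
    ∑ i ∈ range n, (7072 / 10000 : ℝ) ^ i ≤ 342 / 100 - 342 / 100 * (7072 / 10000 : ℝ) ^ n := by
  induction n with
  | zero => simp
  | succ n ih =>
    rw [Finset.sum_range_succ, pow_succ]
    have h : (0 : ℝ) < (7072 / 10000 : ℝ) ^ n := by positivity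
    nlinarith

theorem bigs_two (n : ℕ) : ∑ i ∈ range n, (2 : ℝ) ^ i ≤ 2 ^ n - 1 := by
  induction n with
  | zero => simp
  | succ n ih =>
    rw [Finset.sum_range_succ, pow_succ]
    linarith

theorem bigs : S_level → S_bigs2 := by
  intro hlev J l K p hK hp hpB huni hlc
  have h8 : (0 : ℝ) < 8 ^ l := by positivity
  set τ : ℝ := K / 8 ^ l with hτ
  -- no big nodes of level at least `3 l`
  have hlow : ∀ u ∈ bigs2 τ J p, u.1 < 3 * l := by
    intro u hu
    rw [bigs2, mem_filter] at hu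
    obtain ⟨hn, hbig⟩ := hu
    rw [nodes, mem_filter, mem_product, mem_range, mem_range] at hn
    by_contra hcon
    rw [not_lt] at hcon
    obtain ⟨s, hs, hlt⟩ := hbig 0 0
    have h1 : |p s - (0 + 0 * (s : ℝ))| = p s := by
      rw [zero_mul, add_zero, sub_zero, abs_of_nonneg (hp s)]
    rw [h1] at hlt
    have h2 : (2 : ℝ) ^ (J - u.1) * p s ≤ K / 2 ^ u.1 := by
      calc (2 : ℝ) ^ (J - u.1) * p s ≤ 2 ^ (J - u.1) * (K / 2 ^ J) :=
            mul_le_mul_of_nonneg_left (hpB s) (by positivity)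
        _ = K / 2 ^ u.1 := by
          have h3 : (2 : ℝ) ^ J = 2 ^ (J - u.1) * 2 ^ u.1 := by
            rw [← pow_add, Nat.sub_add_cancel hn.1.1.le]
          rw [h3]
          field_simp
    have h3 : K / 2 ^ u.1 ≤ K / 8 ^ l := by
      apply div_le_div_of_nonneg_left hK.le h8
      calc (8 : ℝ) ^ l = 2 ^ (3 * l) := by rw [pow_mul]; norm_num
        _ ≤ 2 ^ u.1 := pow_le_pow_right₀ (by norm_num) hcon
    linarith
  refine ⟨?_, hlow⟩
  -- the nodes of one level
  have hfib : (bigs2 τ J p).card =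
      ∑ j ∈ range (3 * l), ((bigs2 τ J p).filter fun u => u.1 = j).card :=
    Finset.card_eq_sum_card_fiberwise fun u hu => mem_coe.2 (mem_range.2 (hlow u hu))
  have hle : ∀ j, ((bigs2 τ J p).filter fun u => u.1 = j).card ≤
      ((range (2 ^ j)).filter fun v => Big2 τ J p j v).card := by
    intro j
    refine Finset.card_le_card_of_injOn (fun u => u.2) ?_ ?_
    · intro u hu
      rw [mem_coe, mem_filter, bigs2, mem_filter, nodes, mem_filter] at hu
      obtain ⟨⟨⟨-, h1⟩, h2⟩, rfl⟩ := hu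
      exact mem_coe.2 (mem_filter.2 ⟨mem_range.2 h1, h2⟩)
    · intro u hu w hw huw
      rw [mem_coe, mem_filter] at hu hw
      exact Prod.ext (hu.2.trans hw.2.symm) huw
  have h1 : ∀ j, (((bigs2 τ J p).filter fun u => u.1 = j).card : ℝ) ≤ 2 ^ j := by
    intro j
    have h2 := (hle j).trans (Finset.card_filter_le _ _)
    rw [card_range] at h2
    exact_mod_cast h2
  have h2 : ∀ i, (((bigs2 τ J p).filter fun u => u.1 = l + i).card : ℝ) ≤
      12 * (1733 / 1000 * 2 ^ l * (7072 / 10000 : ℝ) ^ i) + 3 := by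
    intro i
    by_cases hJ : l + i < J
    · set θ : ℝ := τ / (3 * 2 ^ (J - (l + i))) with hθ
      have hθ0 : 0 < θ := by positivity
      have h3 := hlev p J (l + i) (K / 2 ^ J) θ hJ.le hθ0 hp hlc huni hpB
      have h4 : 3 * θ * 2 ^ (J - (l + i)) = τ := by
        rw [hθ]
        field_simp
      rw [h4] at h3
      have h5 : √(K / 2 ^ J / θ) ≤ 1733 / 1000 * 2 ^ l * (7072 / 10000 : ℝ) ^ i := by
        rw [Real.sqrt_le_left (by positivity)]
        have h6 : K / 2 ^ J / θ = 3 * (4 : ℝ) ^ l * (1 / 2) ^ i := by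
          have h7 : (2 : ℝ) ^ J = 2 ^ (J - (l + i)) * (2 ^ l * 2 ^ i) := by
            rw [← pow_add, ← pow_add, Nat.sub_add_cancel hJ.le]
          have h8' : (8 : ℝ) ^ l = 4 ^ l * 2 ^ l := by
            rw [← mul_pow]
            norm_num
          rw [hθ, hτ, h7, h8', one_div, inv_pow]
          field_simp
        rw [h6]
        have h9 : ((1 : ℝ) / 2) ^ i ≤ ((7072 / 10000 : ℝ) ^ i) ^ 2 := by
          rw [← pow_mul, mul_comm i 2, pow_mul]
          exact pow_le_pow_left₀ (by norm_num) (by norm_num) i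
        have h10 : ((2 : ℝ) ^ l) ^ 2 = 4 ^ l := by
          rw [← pow_mul, mul_comm l 2, pow_mul]
          norm_num
        calc 3 * (4 : ℝ) ^ l * (1 / 2) ^ i ≤ 3 * (4 : ℝ) ^ l * ((7072 / 10000 : ℝ) ^ i) ^ 2 :=
              mul_le_mul_of_nonneg_left h9 (by positivity)
          _ ≤ (1733 / 1000) ^ 2 * (4 : ℝ) ^ l * ((7072 / 10000 : ℝ) ^ i) ^ 2 := by
              refine mul_le_mul_of_nonneg_right (mul_le_mul_of_nonneg_right (by norm_num)
                (by positivity)) (by positivity)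
          _ = (1733 / 1000 * 2 ^ l * (7072 / 10000 : ℝ) ^ i) ^ 2 := by rw [← h10]; ring
      have h11 : (((bigs2 τ J p).filter fun u => u.1 = l + i).card : ℝ) ≤
          (((range (2 ^ (l + i))).filter fun v => Big2 τ J p (l + i) v).card : ℝ) :=
        Nat.cast_le.2 (hle _)
      linarith
    · have h3 : ((bigs2 τ J p).filter fun u => u.1 = l + i) = ∅ := by
        refine Finset.filter_eq_empty_iff.2 fun u hu hui => hJ ?_
        rw [bigs2, mem_filter, nodes, mem_filter, mem_product, mem_range] at hu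
        rw [← hui]
        exact hu.1.1.1
      rw [h3, card_empty, Nat.cast_zero]
      positivity
  have h3 : ((bigs2 τ J p).card : ℝ) ≤ 80 * 2 ^ l := by
    rw [hfib, Nat.cast_sum, show 3 * l = l + 2 * l by ring, Finset.sum_range_add]
    have h4 : ∑ j ∈ range l, (((bigs2 τ J p).filter fun u => u.1 = j).card : ℝ) ≤ 2 ^ l - 1 :=
      (Finset.sum_le_sum fun j _ => h1 j).trans (bigs_two l)
    have h5 : ∑ i ∈ range (2 * l), (((bigs2 τ J p).filter fun u => u.1 = l + i).card : ℝ) ≤
        12 * (1733 / 1000 * 2 ^ l * (342 / 100)) + 3 * (2 * l) := by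
      refine (Finset.sum_le_sum fun i _ => h2 i).trans ?_
      rw [Finset.sum_add_distrib, Finset.sum_const, card_range, nsmul_eq_mul, ← Finset.mul_sum,
        ← Finset.mul_sum]
      have h6 := bigs_geom (2 * l)
      have h7 : (0 : ℝ) < (7072 / 10000 : ℝ) ^ (2 * l) := by positivity
      have h8' : ∑ i ∈ range (2 * l), (7072 / 10000 : ℝ) ^ i ≤ 342 / 100 := by linarith
      have h9 : 1733 / 1000 * (2 : ℝ) ^ l * ∑ i ∈ range (2 * l), (7072 / 10000 : ℝ) ^ i ≤
          1733 / 1000 * 2 ^ l * (342 / 100) := mul_le_mul_of_nonneg_left h8' (by positivity)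
      push_cast
      linarith
    have h6 : (l : ℝ) ≤ 2 ^ l := by exact_mod_cast Nat.lt_two_pow_self.le
    have h7 : (0 : ℝ) < 2 ^ l := by positivity
    linarith
  exact_mod_cast h3

end Pool.Agent.H36.LC.T
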