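import Pool.Agent.H36.LC.Stm

/-!
# LC-CLU (helper61): the cluster bound (adapted from `Pool/Agent/H36/BK/Clu.lean`)
-/

set_option autoImplicit false

open Finset Filter Topology
open scoped Classical

namespace Pool.Agent.H36.LC.T

open Pool.Agent.H36.BK Pool.Agent.H36.BK.LW Pool.Agent.H36.LC

/-- the number of the elements of the key -/
lemma key2_card (hB : S_bigs2) {J l : ℕ} {K : ℝ} {p : ℕ → ℝ} (hK : 0 < K) (h1 : ∀ s, 0 ≤ p s)
    (h2 : ∀ s, p s ≤ K / 2 ^ J) (h3 : Unim p) (h4 : LCc p) :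
    (key2 (K / 8 ^ l) J p).card ≤ 241 * 2 ^ l := by
  have h5 := (hB J l K p hK h1 h2 h3 h4).1
  set b := bigs2 (K / 8 ^ l) J p with hb
  have h6 : key2 (K / 8 ^ l) J p ⊆ {((0 : ℕ), (0 : ℕ))} ∪ (b ∪
      (b.image (fun w => (w.1 + 1, 2 * w.2)) ∪ b.image (fun w => (w.1 + 1, 2 * w.2 + 1)))) := by
    intro u hu
    unfold key2 at hu
    rw [mem_filter] at hu
    rcases hu.2 with h | h | ⟨w, hw, h | h⟩
    · exact mem_union_left _ (mem_singleton.2 h)
    · exact mem_union_right _ (mem_union_left _ h)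
    · exact mem_union_right _ (mem_union_right _ (mem_union_left _
        (mem_image.2 ⟨w, hw, h.symm⟩)))
    · exact mem_union_right _ (mem_union_right _ (mem_union_right _
        (mem_image.2 ⟨w, hw, h.symm⟩)))
  have h7 := card_le_card h6
  have h8 := card_union_le {((0 : ℕ), (0 : ℕ))} (b ∪
      (b.image (fun w => (w.1 + 1, 2 * w.2)) ∪ b.image (fun w => (w.1 + 1, 2 * w.2 + 1))))
  have h9 := card_union_le b
      (b.image (fun w => (w.1 + 1, 2 * w.2)) ∪ b.image (fun w => (w.1 + 1, 2 * w.2 + 1)))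
  have h10 := card_union_le (b.image (fun w => (w.1 + 1, 2 * w.2)))
      (b.image (fun w => (w.1 + 1, 2 * w.2 + 1)))
  have h11 := card_image_le (s := b) (f := fun w => (w.1 + 1, 2 * w.2))
  have h12 := card_image_le (s := b) (f := fun w => (w.1 + 1, 2 * w.2 + 1))
  rw [card_singleton] at h8
  have h13 : 1 ≤ 2 ^ l := Nat.one_le_two_pow
  omega

/-- the levels of the elements of the key -/
lemma key2_level (hB : S_bigs2) {J l : ℕ} {K : ℝ} {p : ℕ → ℝ} (hK : 0 < K) (h1 : ∀ s, 0 ≤ p s)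
    (h2 : ∀ s, p s ≤ K / 2 ^ J) (h3 : Unim p) (h4 : LCc p) :
    ∀ u ∈ key2 (K / 8 ^ l) J p, u.1 < 3 * l + 1 := by
  have h5 := (hB J l K p hK h1 h2 h3 h4).2
  intro u hu
  unfold key2 at hu
  rw [mem_filter] at hu
  rcases hu.2 with h | h | ⟨w, hw, h | h⟩
  · rw [h]
    simp
  · have := h5 u h
    omega
  · have := h5 w hw
    rw [h]
    simp only
    omega
  · have := h5 w hw
    rw [h]
    simp only
    omega

/-- the bound for the subclusters -/
lemma sub_bound2 (hT : S_tree) (hB : S_bigs2) (hN : S_norm2) (ι : Type) (S : Finset ι)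
    (p : ι → ℕ → ℝ) (J l : ℕ) (K ε : ℝ) (hK : 1 ≤ K) (hε : 0 < ε) (hε1 : ε ≤ 1)
    (p₀ : ℕ → ℝ) (hp₀ : (∀ s, 0 ≤ p₀ s) ∧ ∑ s ∈ range (2 ^ J), p₀ s = 1 ∧
      (∀ s, p₀ s ≤ K / 2 ^ J) ∧ Unim p₀ ∧ LCc p₀)
    (hp : ∀ i ∈ S, (∀ s, 0 ≤ p i s) ∧ ∑ s ∈ range (2 ^ J), p i s = 1 ∧
      (∀ s, p i s ≤ K / 2 ^ J) ∧ Unim (p i) ∧ LCc (p i))
    (hom : ∀ i ∈ S, ∀ j ∈ S, i ≠ j → ε ≤ |om (2 ^ J) (p i) (p j)|)
    (hI : ∀ i ∈ S, key2 (K / 8 ^ l) J (p i) = key2 (K / 8 ^ l) J p₀)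
    (hg : ∀ i ∈ S, ∀ u ∈ key2 (K / 8 ^ l) J p₀,
      |mass (p i) J (u.1 + 1) (2 * u.2) - mass p₀ J (u.1 + 1) (2 * u.2)| ≤ ε / (100 * 8 ^ l) ∧
      |mass (p i) J (u.1 + 1) (2 * u.2 + 1) - mass p₀ J (u.1 + 1) (2 * u.2 + 1)| ≤
        ε / (100 * 8 ^ l))
    (hl : ∀ i ∈ S, ∀ j ∈ S, |om (2 ^ J) p₀ (p i) - om (2 ^ J) p₀ (p j)| ≤ ε / 8) :
    (S.card : ℝ) ≤ Real.exp (Real.pi * (500000 * K ^ 2 / (ε * 32 ^ l))) := by
  rcases S.eq_empty_or_nonempty with h0 | hne
  · rw [h0, card_empty, Nat.cast_zero]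
    exact (Real.exp_pos _).le
  set τ : ℝ := K / 8 ^ l with hτ
  set ξ : ℝ := ε / (100 * 8 ^ l) with hξ
  set I₀ := key2 τ J p₀ with hI₀
  have h4 : (0 : ℝ) < 8 ^ l := by positivity
  have hξ0 : 0 ≤ ξ := by positivity
  have hξτ : ξ ≤ τ := by
    rw [hξ, hτ, div_le_div_iff₀ (by positivity) h4]
    nlinarith
  have hIc := key2_card hB (J := J) (l := l) (by linarith) hp₀.1 hp₀.2.2.1 hp₀.2.2.2.1 hp₀.2.2.2.2
  rw [← hτ, ← hI₀] at hIc
  have hIs : I₀ ⊆ nodes J := filter_subset _ _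
  -- the vectors
  set c : ℝ := √(ε / 2) with hc
  have hc0 : 0 < c := Real.sqrt_pos.2 (by linarith)
  have hc2 : c * c = ε / 2 := Real.mul_self_sqrt (by linarith)
  let aL : ι → ℕ × ℕ → ℝ := fun i u =>
    mass (p i) J (u.1 + 1) (2 * u.2) - mass p₀ J (u.1 + 1) (2 * u.2)
  let aR : ι → ℕ × ℕ → ℝ := fun i u =>
    mass (p i) J (u.1 + 1) (2 * u.2 + 1) - mass p₀ J (u.1 + 1) (2 * u.2 + 1)
  let z : {i // i ∈ S} → {u // u ∈ nodes J \ I₀} → ℂ := fun i u =>
    ⟨aL i.1 u.1 / c, aR i.1 u.1 / c⟩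
  have hne' : Nonempty {i // i ∈ S} := ⟨⟨hne.choose, hne.choose_spec⟩⟩
  have hnorm : ∀ i : {i // i ∈ S}, (Hil.gr z i i).re ≤ 500000 * K ^ 2 / (ε * 32 ^ l) := by
    intro i
    have h1 : (Hil.gr z i i).re = ∑ u : {u // u ∈ nodes J \ I₀},
        (aL i.1 u.1 ^ 2 + aR i.1 u.1 ^ 2) / (ε / 2) := by
      unfold Hil.gr
      rw [Complex.re_sum]
      refine sum_congr rfl fun u _ => ?_
      rw [Complex.mul_re, Complex.conj_re, Complex.conj_im]
      show aL i.1 u.1 / c * (aL i.1 u.1 / c) - -(aR i.1 u.1 / c) * (aR i.1 u.1 / c) = _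
      rw [← hc2]
      field_simp
      ring
    rw [h1, ← sum_div, sum_coe_sort (nodes J \ I₀) (fun u => aL i.1 u ^ 2 + aR i.1 u ^ 2)]
    have h2 := hN J τ ξ (p i.1) p₀ hξ0 hξτ (hI i.1 i.2) (by
      intro u hu
      rw [hI i.1 i.2] at hu
      exact hg i.1 i.2 u hu)
    rw [hI i.1 i.2] at h2
    have hIc' : (I₀.card : ℝ) ≤ 241 * 2 ^ l := by exact_mod_cast hIc
    have h5 : (I₀.card : ℝ) * (30 * τ) ^ 2 ≤ 216900 * K ^ 2 / 32 ^ l := by
      have h8 : (30 * τ) ^ 2 = 900 * K ^ 2 / 64 ^ l := by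
        rw [hτ, mul_pow, div_pow, ← pow_mul, mul_comm l 2, pow_mul]
        norm_num
        ring
      rw [h8]
      calc (I₀.card : ℝ) * (900 * K ^ 2 / 64 ^ l) ≤ 241 * 2 ^ l * (900 * K ^ 2 / 64 ^ l) :=
            mul_le_mul_of_nonneg_right hIc' (by positivity)
        _ = 216900 * K ^ 2 / 32 ^ l := by
            have : (64 : ℝ) ^ l = 2 ^ l * 32 ^ l := by rw [← mul_pow]; norm_num
            rw [this]
            field_simp
            ring
    calc (∑ u ∈ nodes J \ I₀, (aL i.1 u ^ 2 + aR i.1 u ^ 2)) / (ε / 2)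
        ≤ (216900 * K ^ 2 / 32 ^ l) / (ε / 2) :=
          div_le_div_of_nonneg_right (h2.trans h5) (by linarith)
      _ = 433800 * K ^ 2 / (ε * 32 ^ l) := by field_simp; ring
      _ ≤ 500000 * K ^ 2 / (ε * 32 ^ l) := by
          apply div_le_div_of_nonneg_right _ (by positivity)
          nlinarith [sq_nonneg K]
  have him : ∀ i j : {i // i ∈ S}, i ≠ j → 1 ≤ |(Hil.gr z i j).im| := by
    intro i j hij
    have h1 : (Hil.gr z i j).im = (∑ u ∈ nodes J \ I₀,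
        (aL i.1 u * aR j.1 u - aL j.1 u * aR i.1 u)) / (ε / 2) := by
      unfold Hil.gr
      rw [Complex.im_sum, sum_div, ← sum_coe_sort (nodes J \ I₀)]
      refine sum_congr rfl fun u _ => ?_
      rw [Complex.mul_im, Complex.conj_re, Complex.conj_im]
      show aL i.1 u.1 / c * (aR j.1 u.1 / c) + -(aR i.1 u.1 / c) * (aL j.1 u.1 / c) = _
      rw [← hc2]
      field_simp
      ring
    have h2 : om (2 ^ J) (fun s => p i.1 s - p₀ s) (fun s => p j.1 s - p₀ s) =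
        ∑ u ∈ nodes J, (aL i.1 u * aR j.1 u - aL j.1 u * aR i.1 u) := by
      rw [hT]
      refine sum_congr rfl fun u _ => ?_
      rw [mass_sub, mass_sub, mass_sub, mass_sub]
    rw [om_sub, ← sum_sdiff hIs] at h2
    have h3 : |∑ u ∈ I₀, (aL i.1 u * aR j.1 u - aL j.1 u * aR i.1 u)| ≤ ε / 8 := by
      have h4 : |∑ u ∈ I₀, (aL i.1 u * aR j.1 u - aL j.1 u * aR i.1 u)| ≤
          ∑ u ∈ I₀, (2 * ξ ^ 2) := by
        refine (abs_sum_le_sum_abs _ _).trans (sum_le_sum fun u hu => ?_)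
        have a1 : |aL i.1 u| ≤ ξ := (hg i.1 i.2 u hu).1
        have a2 : |aR i.1 u| ≤ ξ := (hg i.1 i.2 u hu).2
        have b1 : |aL j.1 u| ≤ ξ := (hg j.1 j.2 u hu).1
        have b2 : |aR j.1 u| ≤ ξ := (hg j.1 j.2 u hu).2
        calc |aL i.1 u * aR j.1 u - aL j.1 u * aR i.1 u|
            ≤ |aL i.1 u * aR j.1 u| + |aL j.1 u * aR i.1 u| := abs_sub _ _
          _ = |aL i.1 u| * |aR j.1 u| + |aL j.1 u| * |aR i.1 u| := by rw [abs_mul, abs_mul]
          _ ≤ ξ * ξ + ξ * ξ := add_le_add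
              (mul_le_mul a1 b2 (abs_nonneg _) hξ0) (mul_le_mul b1 a2 (abs_nonneg _) hξ0)
          _ = 2 * ξ ^ 2 := by ring
      rw [sum_const, nsmul_eq_mul] at h4
      refine h4.trans ?_
      have hIc' : (I₀.card : ℝ) ≤ 241 * 2 ^ l := by exact_mod_cast hIc
      calc (I₀.card : ℝ) * (2 * ξ ^ 2) ≤ 241 * 2 ^ l * (2 * ξ ^ 2) :=
            mul_le_mul_of_nonneg_right hIc' (by positivity)
        _ = 482 * ε ^ 2 / 10000 / 32 ^ l := by
            rw [hξ]
            have : (8 : ℝ) ^ l * 8 ^ l = 2 ^ l * 32 ^ l := by rw [← mul_pow, ← mul_pow]; norm_num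
            have h9 : (100 * (8 : ℝ) ^ l) ^ 2 = 10000 * (2 ^ l * 32 ^ l) := by
              rw [mul_pow, sq ((8 : ℝ) ^ l), this]
              norm_num
            rw [div_pow, h9]
            field_simp
            ring
        _ ≤ 482 * ε ^ 2 / 10000 / 1 := by
            apply div_le_div_of_nonneg_left (by positivity) (by norm_num)
            exact one_le_pow₀ (by norm_num)
        _ ≤ ε / 8 := by nlinarith
    have h4 := hom i.1 i.2 j.1 j.2 (fun h => hij (Subtype.ext h))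
    have h5 := hl i.1 i.2 j.1 j.2
    rw [h1, abs_div, abs_of_pos (show (0 : ℝ) < ε / 2 by linarith), le_div_iff₀ (by linarith)]
    set A := ∑ u ∈ nodes J \ I₀, (aL i.1 u * aR j.1 u - aL j.1 u * aR i.1 u)
    set B := ∑ u ∈ I₀, (aL i.1 u * aR j.1 u - aL j.1 u * aR i.1 u)
    have h6 : |om (2 ^ J) (p i.1) (p j.1)| ≤ |A| + |B| +
        |om (2 ^ J) p₀ (p i.1) - om (2 ^ J) p₀ (p j.1)| := by
      have h7 : om (2 ^ J) (p i.1) (p j.1) = A + B -
          (om (2 ^ J) p₀ (p i.1) - om (2 ^ J) p₀ (p j.1)) := by linarith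
      rw [h7]
      exact (abs_sub _ _).trans (add_le_add (abs_add_le _ _) le_rfl)
    linarith
  have h := Hil.tournament z hnorm him
  rwa [Fintype.card_coe] at h

/-- LC-CLU -/
theorem clu : S_bigs2 → S_norm2 → S_clu2 := by
  intro hB hN ι S p J l K ε hJ hK hε hε1 hp hom
  have hT : S_tree := tree
  have hKey : S_key := key
  set E : ℝ := Real.exp (Real.pi * (500000 * K ^ 2 / (ε * 32 ^ l))) with hE
  have hE0 : 0 < E := Real.exp_pos _
  have h4 : (0 : ℝ) < 8 ^ l := by positivity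
  obtain ⟨S₁, hS₁, hclu, hcard⟩ := hKey ι (ℕ × ℕ) S (nodes (3 * l + 1))
    (fun i => key2 (K / 8 ^ l) J (p i)) (300 * 2 ^ l)
    (fun i u => (mass (p i) J (u.1 + 1) (2 * u.2), mass (p i) J (u.1 + 1) (2 * u.2 + 1)))
    (ε / (100 * 8 ^ l)) (by positivity) (by
      intro i hi
      obtain ⟨h1, h2, h3, h5, h5'⟩ := hp i hi
      have h6 := key2_card hB (J := J) (l := l) (by linarith) h1 h3 h5 h5'
      have h7 := key2_level hB (J := J) (l := l) (by linarith) h1 h3 h5 h5'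
      refine ⟨fun u hu => ?_, h6.trans (Nat.mul_le_mul_right _ (by norm_num))⟩
      have h8 := mem_nodes.1 ((filter_subset _ _) hu : u ∈ nodes J)
      exact mem_nodes.2 ⟨h7 u hu, h8.2⟩) (by
      intro i hi u hu
      obtain ⟨h1, h2, h3, h5, -⟩ := hp i hi
      have h8 := mem_nodes.1 ((filter_subset _ _) hu : u ∈ nodes J)
      have h9 : 2 * u.2 + 1 < 2 ^ (u.1 + 1) := by rw [pow_succ]; omega
      refine ⟨mass_nonneg h1 _ _ _, ?_, mass_nonneg h1 _ _ _, ?_⟩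
      · rw [← h2]
        exact mass_le h1 h8.1 (by omega)
      · rw [← h2]
        exact mass_le h1 h8.1 h9)
  -- the second pigeonhole
  have hS1 : (S₁.card : ℝ) ≤ E * (16 / ε + 1) := by
    rcases S₁.eq_empty_or_nonempty with h0 | ⟨i₀, hi₀⟩
    · rw [h0, card_empty, Nat.cast_zero]
      positivity
    set N : ℕ := ⌊16 / ε⌋₊ + 1 with hN1
    set cl : ι → ℕ := fun i => ⌊(om (2 ^ J) (p i₀) (p i) + 1) / (ε / 8)⌋₊ with hcl
    have hp₀ := hp i₀ (hS₁ hi₀)
    have hrange : ∀ i ∈ S₁, 0 ≤ om (2 ^ J) (p i₀) (p i) + 1 ∧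
        om (2 ^ J) (p i₀) (p i) + 1 ≤ 2 := by
      intro i hi
      have h1 := hp i (hS₁ hi)
      have h2 := abs_le.1 (om_abs_le hp₀.1 h1.1 hp₀.2.1 h1.2.1)
      constructor <;> linarith [h2.1, h2.2]
    have hmaps : ∀ i ∈ S₁, cl i ∈ range N := by
      intro i hi
      rw [mem_range, hN1, Nat.lt_succ_iff]
      apply Nat.floor_le_floor
      rw [div_le_div_iff₀ (by positivity) hε]
      have := (hrange i hi).2
      nlinarith
    have hfib : ∀ b ∈ range N, (S₁.filter fun i => cl i = b).card ≤ ⌊E⌋₊ := by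
      intro b _
      apply Nat.le_floor
      apply sub_bound2 hT hB hN ι _ p J l K ε hK hε hε1 (p i₀) hp₀
      · intro i hi
        exact hp i (hS₁ (mem_filter.1 hi).1)
      · intro i hi j hj
        exact hom i (hS₁ (mem_filter.1 hi).1) j (hS₁ (mem_filter.1 hj).1)
      · intro i hi
        exact (hclu i (mem_filter.1 hi).1 i₀ hi₀).1
      · intro i hi u hu
        have h1 := hclu i (mem_filter.1 hi).1 i₀ hi₀
        have h2 : key2 (K / 8 ^ l) J (p i) = key2 (K / 8 ^ l) J (p i₀) := h1.1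
        rw [← h2] at hu
        exact h1.2 u hu
      · intro i hi j hj
        have e1 : cl i = cl j := (mem_filter.1 hi).2.trans (mem_filter.1 hj).2.symm
        have r1 := hrange i (mem_filter.1 hi).1
        have r2 := hrange j (mem_filter.1 hj).1
        have f1 := Nat.floor_le (div_nonneg r1.1 (show (0 : ℝ) ≤ ε / 8 by linarith))
        have f2 := Nat.lt_floor_add_one ((om (2 ^ J) (p i₀) (p i) + 1) / (ε / 8))
        have g1 := Nat.floor_le (div_nonneg r2.1 (show (0 : ℝ) ≤ ε / 8 by linarith))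
        have g2 := Nat.lt_floor_add_one ((om (2 ^ J) (p i₀) (p j) + 1) / (ε / 8))
        simp only [hcl] at e1
        rw [e1] at f1 f2
        rw [le_div_iff₀ (by linarith)] at f1 g1
        rw [div_lt_iff₀ (by linarith)] at f2 g2
        rw [abs_le]
        constructor <;> nlinarith
    have h1 := card_le_mul_card_image_of_maps_to hmaps ⌊E⌋₊ hfib
    rw [card_range] at h1
    have h2 : (S₁.card : ℝ) ≤ (⌊E⌋₊ : ℝ) * N := by exact_mod_cast h1
    refine h2.trans (mul_le_mul (Nat.floor_le hE0.le) ?_ (Nat.cast_nonneg _) hE0.le)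
    rw [hN1]
    push_cast
    linarith [Nat.floor_le (show (0 : ℝ) ≤ 16 / ε by positivity)]
  have hU : ((nodes (3 * l + 1)).card : ℝ) ≤ 2 * 8 ^ l := by
    have h1 := card_nodes_le (3 * l + 1)
    rw [pow_succ, pow_mul] at h1
    norm_num at h1
    have h2 : ((nodes (3 * l + 1)).card : ℝ) ≤ 8 ^ l * 2 := by exact_mod_cast h1
    linarith
  have hinv : 1 / (ε / (100 * 8 ^ l)) = 100 * 8 ^ l / ε := by
    rw [one_div_div]
  rw [hinv] at hcard
  refine hcard.trans ?_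
  unfold clu2
  rw [← hE, mul_assoc]
  refine mul_le_mul ?_ (hS1.trans_eq (mul_comm _ _)) (Nat.cast_nonneg _) (by positivity)
  gcongr

end Pool.Agent.H36.LC.T
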