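import Pool.Agent.H36.LC.Stm

/-!
# Stub LC-DEV: a log-concave decreasing sequence is near to its chord
-/

set_option autoImplicit false

open Finset Filter Topology
open scoped Classical

namespace Pool.Agent.H36.LC.T

theorem dev_dbl (p : ℕ → ℝ) (a : ℕ) (hlc : LCc p)
    (ha : ∀ i j, a ≤ i → i ≤ j → p j ≤ p i) (u m v n : ℕ) (hu : a ≤ u) (huv : u + m ≤ v) :
    (n : ℝ) * ((p u - p (u + m)) * p (v + n)) ≤ m * ((p v - p (v + n)) * p u) := by
  have key : ∀ i ∈ range m, ∀ j ∈ range n, (p (u + i) - p (u + (i + 1))) * p (v + n) ≤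
      (p (v + j) - p (v + (j + 1))) * p u := by
    intro i hi j hj
    rw [mem_range] at hi hj
    have h1 := hlc (u + i) (u + (i + 1)) (v + j) (v + (j + 1)) (by omega) (by omega) (by omega)
    have h2 : (p (u + i) - p (u + (i + 1))) * p (v + j) ≤ (p (v + j) - p (v + (j + 1))) * p (u + i) := by
      linarith
    have h3 : 0 ≤ p (u + i) - p (u + (i + 1)) := by
      linarith [ha (u + i) (u + (i + 1)) (by omega) (by omega)]
    have h4 : 0 ≤ p (v + j) - p (v + (j + 1)) := by
      linarith [ha (v + j) (v + (j + 1)) (by omega) (by omega)]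
    calc (p (u + i) - p (u + (i + 1))) * p (v + n) ≤ (p (u + i) - p (u + (i + 1))) * p (v + j) :=
          mul_le_mul_of_nonneg_left (ha (v + j) (v + n) (by omega) (by omega)) h3
      _ ≤ (p (v + j) - p (v + (j + 1))) * p (u + i) := h2
      _ ≤ (p (v + j) - p (v + (j + 1))) * p u :=
          mul_le_mul_of_nonneg_left (ha u (u + i) hu (by omega)) h4
  have hs := Finset.sum_le_sum fun i hi => Finset.sum_le_sum fun j hj => key i hi j hj
  have t1 : ∑ i ∈ range m, (p (u + i) - p (u + (i + 1))) = p u - p (u + m) :=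
    Finset.sum_range_sub' (fun i => p (u + i)) m
  have t2 : ∑ j ∈ range n, (p (v + j) - p (v + (j + 1))) = p v - p (v + n) :=
    Finset.sum_range_sub' (fun j => p (v + j)) n
  simp only [← Finset.sum_mul, Finset.sum_const, card_range, nsmul_eq_mul, ← Finset.mul_sum, t1, t2] at hs
  linarith

theorem dev : S_dev := by
  intro p a L θ hL hθ h0 hlc ha H0 H1 H2 k hk
  have hLr : (0 : ℝ) < L := by exact_mod_cast (by omega : 0 < L)
  have hkr : (k : ℝ) ≤ L := by exact_mod_cast hk
  have e1 : a + L + k + (L - k) = a + 2 * L := by omega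
  have A := dev_dbl p a hlc ha (a + L) k (a + L + k) (L - k) (by omega) le_rfl
  rw [e1, Nat.cast_sub hk] at A
  have B := dev_dbl p a hlc ha a L (a + L) k le_rfl le_rfl
  have hx1 : p (a + L + k) ≤ p (a + L) := ha _ _ (by omega) (by omega)
  have hx2 : p (a + 2 * L) ≤ p (a + L + k) := ha _ _ (by omega) (by omega)
  have h01 : p (a + L) ≤ p a := ha _ _ le_rfl (by omega)
  have hP2 := h0 (a + 2 * L)
  generalize p (a + 2 * L) = P2 at *
  generalize p (a + L + k) = x at *
  generalize p (a + L) = P1 at *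
  generalize p a = P0 at *
  set κ : ℝ := (k : ℝ) / L with hκ
  have hk0 : (0 : ℝ) ≤ k := Nat.cast_nonneg k
  have hκ0 : 0 ≤ κ := by positivity
  have hκ1 : κ ≤ 1 := (div_le_one hLr).2 hkr
  have hkL : (k : ℝ) = κ * L := by rw [hκ]; field_simp
  rw [hkL] at A B
  -- divide by `L`
  have A' : (1 - κ) * ((P1 - x) * P2) ≤ κ * ((x - P2) * P1) := by
    have : L * ((1 - κ) * ((P1 - x) * P2)) ≤ L * (κ * ((x - P2) * P1)) := by linarith
    exact le_of_mul_le_mul_left this hLr
  have B' : κ * ((P0 - P1) * x) ≤ (P1 - x) * P0 := by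
    have : L * (κ * ((P0 - P1) * x)) ≤ L * ((P1 - x) * P0) := by linarith
    exact le_of_mul_le_mul_left this hLr
  rcases (by linarith : (0 : ℝ) ≤ P0).eq_or_lt with hz | hP0
  · have e2 : P1 = 0 := by linarith
    have e3 : P2 = 0 := by linarith
    have e4 : x = 0 := by linarith
    rw [e2, e3, e4]
    simp only [sub_self, mul_zero, abs_zero]
    linarith
  · rw [abs_le]
    constructor
    · rcases (by linarith : (0 : ℝ) ≤ P1).eq_or_lt with hz | hP1
      · have e3 : P2 = 0 := by linarith
        have e4 : x = 0 := by linarith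
        rw [← hz, e3, e4]
        simp only [sub_self, mul_zero]
        linarith
      · have h1 : ((P1 - x) - κ * (P1 - P2)) * P1 ≤ (1 - κ) * ((P1 - P2) * (P1 - x)) := by
          nlinarith [A']
        have h2 : (1 - κ) * ((P1 - P2) * (P1 - x)) ≤ (P1 - P2) ^ 2 := by
          have h3 : (P1 - P2) * (P1 - x) ≤ (P1 - P2) * (P1 - P2) :=
            mul_le_mul_of_nonneg_left (by linarith) (by linarith)
          have h4 : 0 ≤ (P1 - P2) * (P1 - x) := mul_nonneg (by linarith) (by linarith)
          nlinarith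
        have h5 : ((P1 - x) - κ * (P1 - P2)) * P1 ≤ θ * P1 := h1.trans (h2.trans H1)
        have h6 := le_of_mul_le_mul_right h5 hP1
        linarith
    · have h1 : (κ * (P0 - P1) - (P1 - x)) * P0 ≤ κ * ((P0 - P1) * ((P0 - P1) + (P1 - x))) := by
        nlinarith [B']
      have h2 : κ * ((P0 - P1) * ((P0 - P1) + (P1 - x))) ≤ (P0 - P1) ^ 2 + (P0 - P1) * (P1 - P2) := by
        have h3 : (P0 - P1) * (P1 - x) ≤ (P0 - P1) * (P1 - P2) :=
          mul_le_mul_of_nonneg_left (by linarith) (by linarith)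
        have h4 : 0 ≤ (P0 - P1) * ((P0 - P1) + (P1 - x)) := mul_nonneg (by linarith) (by linarith)
        have h5 : κ * ((P0 - P1) * ((P0 - P1) + (P1 - x))) ≤ 1 * ((P0 - P1) * ((P0 - P1) + (P1 - x))) :=
          mul_le_mul_of_nonneg_right hκ1 h4
        linarith
      have h3 : (P0 - P1) * (P1 - P2) ≤ θ * P0 := by
        rcases le_total (P1 - P2) (P0 - P1) with h | h
        · have : (P0 - P1) * (P1 - P2) ≤ (P0 - P1) * (P0 - P1) :=
            mul_le_mul_of_nonneg_left h (by linarith)
          linarith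
        · have h4 : (P0 - P1) * (P1 - P2) ≤ (P1 - P2) * (P1 - P2) :=
            mul_le_mul_of_nonneg_right h (by linarith)
          have h5 : θ * P1 ≤ θ * P0 := mul_le_mul_of_nonneg_left h01 hθ
          linarith
      have h4 : (κ * (P0 - P1) - (P1 - x)) * P0 ≤ (2 * θ) * P0 := by linarith
      have h5 := le_of_mul_le_mul_right h4 hP0
      have h6 : κ * ((P1 - P2) - (P0 - P1)) ≤ θ := by
        rcases le_total ((P1 - P2) - (P0 - P1)) 0 with h | h
        · exact (mul_nonpos_of_nonneg_of_nonpos hκ0 h).trans hθ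
        · have : κ * ((P1 - P2) - (P0 - P1)) ≤ 1 * ((P1 - P2) - (P0 - P1)) :=
            mul_le_mul_of_nonneg_right hκ1 h
          linarith
      linarith

end Pool.Agent.H36.LC.T
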