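import Pool.Agent.H36.LC.Stm

/-! Project LC: stub LEVEL -/

set_option autoImplicit false

open Finset Filter Topology
open scoped Classical

open Pool.Agent.H36.BK Pool.Agent.H36.BK.LW

namespace Pool.Agent.H36.LC.T

namespace LEVEL

/-- the reflected sequence -/
noncomputable def rf (p : ℕ → ℝ) (M : ℕ) (s : ℕ) : ℝ := if s ≤ M then p (M - s) else 0

theorem rf_nonneg {p : ℕ → ℝ} (hp : ∀ s, 0 ≤ p s) (M s : ℕ) : 0 ≤ rf p M s := by
  unfold rf
  split_ifs
  · exact hp _
  · exact le_rfl

theorem rf_lc {p : ℕ → ℝ} (hp : ∀ s, 0 ≤ p s) (h : LCc p) (M : ℕ) : LCc (rf p M) := by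
  intro a b c d hab hac hs
  by_cases hd : d ≤ M
  · have h1 := h (M - d) (M - b) (M - c) (M - a) (by omega) (by omega) (by omega)
    unfold rf
    rw [if_pos (by omega), if_pos hd, if_pos (by omega), if_pos (by omega), mul_comm]
    exact h1
  · have h1 : rf p M d = 0 := by
      unfold rf
      rw [if_neg hd]
    rw [h1, mul_zero]
    exact mul_nonneg (rf_nonneg hp M b) (rf_nonneg hp M c)

theorem rf_anti {p : ℕ → ℝ} (hp : ∀ s, 0 ≤ p s) {M m : ℕ} (hM : M ≤ m)
    (h : ∀ i j, i ≤ j → j ≤ m → p i ≤ p j) (i j : ℕ) (hij : i ≤ j) : rf p M j ≤ rf p M i := by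
  unfold rf
  by_cases hj : j ≤ M
  · rw [if_pos hj, if_pos (by omega)]
    exact h _ _ (by omega) (by omega)
  · rw [if_neg hj]
    split_ifs
    · exact hp _
    · exact le_rfl

end LEVEL

open LEVEL in
theorem level : S_right → S_level := by
  intro hR p J j B θ hj hθ hp hlc hU hB
  obtain ⟨m, hm1, hm2⟩ := hU
  set L : ℕ := 2 ^ (J - j) with hL
  have hL1 : 1 ≤ L := Nat.one_le_two_pow
  have hL0 : (0 : ℝ) < L := by exact_mod_cast hL1
  have hLr : ((2 : ℝ) ^ (J - j)) = (L : ℝ) := by rw [hL]; push_cast; rfl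
  set u := m / L with hu
  have hum : u * L ≤ m := Nat.div_mul_le_self m L
  have hmu : m ≤ (u + 1) * L := by
    have h1 : m < (m / L + 1) * L := by
      rw [mul_comm]
      exact Nat.lt_mul_div_succ m (by omega)
    exact h1.le
  have hbig : ∀ v, Big2 (3 * θ * 2 ^ (J - j)) J p j v → ∀ α β : ℝ, ∃ s, v * L ≤ s ∧
      s < (v + 1) * L ∧ 3 * θ < |p s - (α + β * s)| := by
    intro v hv α β
    obtain ⟨s, hs, h1⟩ := hv α β
    rw [mem_Ico] at hs
    refine ⟨s, hs.1, hs.2, ?_⟩
    rw [hLr, mul_comm ((L : ℝ)) _] at h1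
    exact lt_of_mul_lt_mul_right h1 hL0.le
  set S := (range (2 ^ j)).filter fun v => Big2 (3 * θ * 2 ^ (J - j)) J p j v with hS
  -- the right side
  set R1 := (range (2 ^ j)).filter fun i => ∀ α β : ℝ, ∃ k, k ≤ L ∧
      3 * θ < |p ((u + 1) * L + (i + 1) * L + k) - (α + β * k)| with hR1
  have b1 : (R1.card : ℝ) ≤ 6 * √(B / θ) :=
    hR p ((u + 1) * L) L (2 ^ j) B θ hL1 hθ hp hlc (fun a b h1 h2 => hm2 a b (by omega) h2) (hB _)
  -- the left side
  set R2 := (range u).filter fun i => ∀ α β : ℝ, ∃ k, k ≤ L ∧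
      3 * θ < |rf p (u * L) (0 + (i + 1) * L + k) - (α + β * k)| with hR2
  have b2 : (R2.card : ℝ) ≤ 6 * √(B / θ) := by
    refine hR (rf p (u * L)) 0 L u B θ hL1 hθ (rf_nonneg hp _) (rf_lc hp hlc _)
      (fun a b _ h2 => rf_anti hp hum hm1 a b h2) ?_
    unfold rf
    rw [if_pos (Nat.zero_le _)]
    exact hB _
  have hsub : S ⊆ (R1.image fun i => i + u + 2) ∪ (R2.image fun i => u - 2 - i) ∪
      {u - 1, u, u + 1} := by
    intro v hv
    rw [hS, mem_filter, mem_range] at hv
    obtain ⟨hv1, hv2⟩ := hv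
    rw [mem_union, mem_union]
    rcases le_or_gt (u + 2) v with h1 | h1
    · left; left
      rw [mem_image]
      refine ⟨v - u - 2, ?_, by omega⟩
      rw [hR1, mem_filter, mem_range]
      refine ⟨lt_of_le_of_lt ((Nat.sub_le _ _).trans (Nat.sub_le _ _)) hv1, fun α β => ?_⟩
      obtain ⟨s, h2, h3, h4⟩ := hbig v hv2 (α - β * ((v * L : ℕ) : ℝ)) β
      have e1 : (u + 1) * L + (v - u - 2 + 1) * L = v * L := by
        rw [← add_mul]
        congr 1
        omega
      refine ⟨s - v * L, ?_, ?_⟩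
      · have : (v + 1) * L = v * L + L := by ring
        omega
      · rw [e1, Nat.add_sub_cancel' h2, Nat.cast_sub h2]
        have e2 : α + β * ((s : ℝ) - ((v * L : ℕ) : ℝ)) = α - β * ((v * L : ℕ) : ℝ) + β * s := by
          ring
        rw [e2]
        exact h4
    · rcases le_or_gt (v + 2) u with h2 | h2
      · left; right
        rw [mem_image]
        refine ⟨u - v - 2, ?_, by omega⟩
        rw [hR2, mem_filter, mem_range]
        refine ⟨by omega, fun α β => ?_⟩
        obtain ⟨s, h3, h4, h5⟩ := hbig v hv2 (α + β * (((v + 1) * L : ℕ) : ℝ)) (-β)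
        have e1 : 0 + (u - v - 2 + 1) * L = u * L - (v + 1) * L := by
          rw [← Nat.sub_mul, zero_add]
          congr 1
          omega
        have e3 : (v + 1) * L ≤ u * L := Nat.mul_le_mul_right L (by omega)
        have e4 : (v + 1) * L = v * L + L := by ring
        refine ⟨(v + 1) * L - s, by omega, ?_⟩
        have e5 : 0 + (u - v - 2 + 1) * L + ((v + 1) * L - s) = u * L - s := by
          rw [e1]
          omega
        rw [e5]
        unfold rf
        rw [if_pos (by omega), Nat.sub_sub_self (by omega), Nat.cast_sub h4.le]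
        have e2 : α + β * ((((v + 1) * L : ℕ) : ℝ) - (s : ℝ)) =
            α + β * (((v + 1) * L : ℕ) : ℝ) + -β * s := by
          ring
        rw [e2]
        exact h5
      · right
        simp only [mem_insert, mem_singleton]
        omega
  have hc : S.card ≤ R1.card + R2.card + 3 := by
    calc S.card ≤ ((R1.image fun i => i + u + 2) ∪ (R2.image fun i => u - 2 - i) ∪
          {u - 1, u, u + 1}).card := card_le_card hsub
      _ ≤ ((R1.image fun i => i + u + 2) ∪ (R2.image fun i => u - 2 - i)).card +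
          ({u - 1, u, u + 1} : Finset ℕ).card := card_union_le _ _
      _ ≤ ((R1.image fun i => i + u + 2).card + (R2.image fun i => u - 2 - i).card) + 3 :=
          add_le_add (card_union_le _ _) card_le_three
      _ ≤ R1.card + R2.card + 3 :=
          add_le_add (add_le_add card_image_le card_image_le) le_rfl
  have hc' : (S.card : ℝ) ≤ R1.card + R2.card + 3 := by exact_mod_cast hc
  linarith

end Pool.Agent.H36.LC.T
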