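import Pool.Agent.H36.LC.Stm

/-! # LC-NORM: the norm bound of second order by induction on the tree (helper27) -/

set_option autoImplicit false

open Finset Filter Topology
open scoped Classical

namespace Pool.Agent.H36.LC.T

open Pool.Agent.H36.BK Pool.Agent.H36.BK.LW Pool.Agent.H13R3.WB Pool.Agent.H931R3.Bal
open Pool.Agent.H36.BK.NormAux

namespace NormAux2

/-- the full summand -/
noncomputable def gF (J : ℕ) (p q : ℕ → ℝ) (j v : ℕ) : ℝ :=
  (mass p J (j + 1) (2 * v) - mass q J (j + 1) (2 * v)) ^ 2 +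
    (mass p J (j + 1) (2 * v + 1) - mass q J (j + 1) (2 * v + 1)) ^ 2

/-- the summand outside of the key -/
noncomputable def g2 (K : Finset (ℕ × ℕ)) (J : ℕ) (p q : ℕ → ℝ) (j v : ℕ) : ℝ :=
  if (j, v) ∈ K then 0 else gF J p q j v

/-- the counting function -/
noncomputable def n2 (K : Finset (ℕ × ℕ)) (j v : ℕ) : ℝ := if (j, v) ∈ K then 1 else 0

lemma smallF {J : ℕ} {p q : ℕ → ℝ} : ∀ (d j v : ℕ) (c : ℝ), j + d = J → 0 ≤ c →
    (∀ s ∈ Ico (v * 2 ^ d) ((v + 1) * 2 ^ d), |p s - q s| * 2 ^ d ≤ c) →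
    TT (gF J p q) d j v ≤ c ^ 2
  | 0, _, _, c, _, _, _ => by simp only [TT]; positivity
  | d + 1, j, v, c, h, hc, ha => by
    have hsub1 : ∀ s ∈ Ico (2 * v * 2 ^ d) ((2 * v + 1) * 2 ^ d), |p s - q s| * 2 ^ d ≤ c / 2 := by
      intro s hs
      have h1 := ha s (by
        rw [mem_Ico] at hs ⊢
        rw [pow_succ]
        constructor <;> nlinarith [hs.1, hs.2, Nat.two_pow_pos d])
      rw [pow_succ] at h1
      linarith
    have hsub2 : ∀ s ∈ Ico ((2 * v + 1) * 2 ^ d) ((2 * v + 1 + 1) * 2 ^ d),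
        |p s - q s| * 2 ^ d ≤ c / 2 := by
      intro s hs
      have h1 := ha s (by
        rw [mem_Ico] at hs ⊢
        rw [pow_succ]
        constructor <;> nlinarith [hs.1, hs.2, Nat.two_pow_pos d])
      rw [pow_succ] at h1
      linarith
    have h1 := smallF (J := J) d (j + 1) (2 * v) (c / 2) (by omega) (by positivity) hsub1
    have h2 := smallF (J := J) d (j + 1) (2 * v + 1) (c / 2) (by omega) (by positivity) hsub2
    have h3 := abs_le.1 (mass_le (J := J) (j := j + 1) (by omega) hsub1)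
    have h4 := abs_le.1 (mass_le (J := J) (j := j + 1) (by omega) hsub2)
    have h5 : gF J p q j v ≤ (c / 2) ^ 2 + (c / 2) ^ 2 := by
      rw [gF]
      have h6 : (mass p J (j + 1) (2 * v) - mass q J (j + 1) (2 * v)) ^ 2 ≤ (c / 2) ^ 2 :=
        sq_le_sq' h3.1 h3.2
      have h7 : (mass p J (j + 1) (2 * v + 1) - mass q J (j + 1) (2 * v + 1)) ^ 2 ≤ (c / 2) ^ 2 :=
        sq_le_sq' h4.1 h4.2
      linarith
    rw [TT]
    nlinarith

lemma TT_mono {g h : ℕ → ℕ → ℝ} (hg : ∀ j v, g j v ≤ h j v) : ∀ d j v : ℕ,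
    TT g d j v ≤ TT h d j v
  | 0, _, _ => le_rfl
  | d + 1, j, v => by
    rw [TT, TT]
    have := TT_mono hg d (j + 1) (2 * v)
    have := TT_mono hg d (j + 1) (2 * v + 1)
    have := hg j v
    linarith

lemma lin_bound (H : ℕ) (x A B τ : ℝ)
    (h1 : |∑ i ∈ range H, (A + B * (x + i))| ≤ 2 * τ)
    (h2 : |∑ i ∈ range H, (A + B * (x + H + i))| ≤ 2 * τ) (k : ℕ) (hk : k ≤ 2 * H) :
    |H * (A + B * (x + k))| ≤ 10 * τ := by
  have hH : (0 : ℝ) ≤ H := Nat.cast_nonneg _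
  have e1 : ∑ i ∈ range H, (A + B * (x + H + i)) =
      ∑ i ∈ range H, (A + B * (x + i)) + B * H * H := by
    have e : ∑ i ∈ range H, (A + B * (x + H + i)) =
        ∑ i ∈ range H, ((A + B * (x + i)) + B * H) := sum_congr rfl fun i _ => by ring
    rw [e, sum_add_distrib, sum_const, card_range, nsmul_eq_mul]
    ring
  rw [e1] at h2
  have h3 : |B * H * H| ≤ 4 * τ := by
    have h4 : |B * H * H| = |(∑ i ∈ range H, (A + B * (x + i)) + B * H * H) -
        ∑ i ∈ range H, (A + B * (x + i))| := by congr 1; ring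
    rw [h4]
    refine (abs_sub _ _).trans ?_
    linarith
  have h5 : |B| * (H * H) ≤ 4 * τ := by
    rw [mul_assoc, abs_mul, abs_of_nonneg (mul_nonneg hH hH)] at h3
    exact h3
  have e2 : H * (A + B * (x + k)) = ∑ i ∈ range H, (A + B * (x + i)) +
      ∑ i ∈ range H, B * ((k : ℝ) - i) := by
    rw [← sum_add_distrib]
    have e : ∑ i ∈ range H, (A + B * (x + i) + B * ((k : ℝ) - i)) =
        ∑ _i ∈ range H, (A + B * (x + k)) := sum_congr rfl fun i _ => by ring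
    rw [e, sum_const, card_range, nsmul_eq_mul]
  have h6 : |∑ i ∈ range H, B * ((k : ℝ) - i)| ≤ 8 * τ := by
    calc |∑ i ∈ range H, B * ((k : ℝ) - i)| ≤ ∑ i ∈ range H, |B * ((k : ℝ) - i)| :=
          abs_sum_le_sum_abs _ _
      _ ≤ ∑ _i ∈ range H, |B| * (2 * H) := by
          refine sum_le_sum fun i hi => ?_
          rw [abs_mul]
          refine mul_le_mul_of_nonneg_left ?_ (abs_nonneg _)
          have hi' : (i : ℝ) < H := by exact_mod_cast mem_range.1 hi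
          have hk' : (k : ℝ) ≤ 2 * H := by exact_mod_cast hk
          have hi0 : (0 : ℝ) ≤ i := Nat.cast_nonneg _
          have hk0 : (0 : ℝ) ≤ k := Nat.cast_nonneg _
          rw [abs_le]
          constructor <;> linarith
      _ = 2 * (|B| * (H * H)) := by rw [sum_const, card_range, nsmul_eq_mul]; ring
      _ ≤ 8 * τ := by linarith
  rw [e2]
  refine (abs_add_le _ _).trans ?_
  linarith

lemma half {p q : ℕ → ℝ} {d x : ℕ} {A B τ ξ : ℝ} (hξ : ξ ≤ τ)
    (h : ∀ s ∈ Ico (x * 2 ^ d) ((x + 1) * 2 ^ d),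
      |(p s - q s) - (A + B * s)| * 2 ^ (d + 1) ≤ 2 * τ)
    (hm : |∑ s ∈ Ico (x * 2 ^ d) ((x + 1) * 2 ^ d), p s -
      ∑ s ∈ Ico (x * 2 ^ d) ((x + 1) * 2 ^ d), q s| ≤ ξ) :
    |∑ i ∈ range (2 ^ d), (A + B * ((x * 2 ^ d : ℕ) + i : ℝ))| ≤ 2 * τ := by
  have e2 : (x + 1) * 2 ^ d - x * 2 ^ d = 2 ^ d := by
    rw [add_mul, one_mul, Nat.add_sub_cancel_left]
  have e1 : ∑ i ∈ range (2 ^ d), (A + B * ((x * 2 ^ d : ℕ) + i : ℝ)) =
      ∑ s ∈ Ico (x * 2 ^ d) ((x + 1) * 2 ^ d), (A + B * s) := by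
    rw [sum_Ico_eq_sum_range, e2]
    refine sum_congr rfl fun i _ => ?_
    push_cast
    ring
  rw [e1]
  rw [← sum_sub_distrib] at hm
  have e3 : ∑ s ∈ Ico (x * 2 ^ d) ((x + 1) * 2 ^ d), (A + B * s) =
      ∑ s ∈ Ico (x * 2 ^ d) ((x + 1) * 2 ^ d), (p s - q s) -
        ∑ s ∈ Ico (x * 2 ^ d) ((x + 1) * 2 ^ d), ((p s - q s) - (A + B * s)) := by
    rw [← sum_sub_distrib]
    exact sum_congr rfl fun s _ => by ring
  have h4 : |∑ s ∈ Ico (x * 2 ^ d) ((x + 1) * 2 ^ d), ((p s - q s) - (A + B * s))| ≤ τ := by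
    calc |∑ s ∈ Ico (x * 2 ^ d) ((x + 1) * 2 ^ d), ((p s - q s) - (A + B * s))|
        ≤ ∑ s ∈ Ico (x * 2 ^ d) ((x + 1) * 2 ^ d), |(p s - q s) - (A + B * s)| :=
          abs_sum_le_sum_abs _ _
      _ ≤ ∑ _s ∈ Ico (x * 2 ^ d) ((x + 1) * 2 ^ d), 2 * τ / 2 ^ (d + 1) := by
          refine sum_le_sum fun s hs => ?_
          rw [le_div_iff₀ (by positivity)]
          exact h s hs
      _ = τ := by
          rw [sum_const, Nat.card_Ico, nsmul_eq_mul, e2]
          push_cast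
          rw [pow_succ]
          field_simp
  rw [e3]
  refine (abs_sub _ _).trans ?_
  linarith

lemma node {p q : ℕ → ℝ} {J j d v : ℕ} {τ ξ : ℝ} (hJ : j + (d + 1) = J) (hτ : 0 ≤ τ) (hξ : ξ ≤ τ)
    (hp : ¬ Big2 τ J p j v) (hq : ¬ Big2 τ J q j v)
    (h1 : |mass p J (j + 1) (2 * v) - mass q J (j + 1) (2 * v)| ≤ ξ)
    (h2 : |mass p J (j + 1) (2 * v + 1) - mass q J (j + 1) (2 * v + 1)| ≤ ξ) :
    ∀ s ∈ Ico (v * 2 ^ (d + 1)) ((v + 1) * 2 ^ (d + 1)), |p s - q s| * 2 ^ (d + 1) ≤ 30 * τ := by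
  have e1 : J - j = d + 1 := by omega
  have e2 : J - (j + 1) = d := by omega
  unfold Big2 at hp hq
  push Not at hp hq
  obtain ⟨α, β, hp⟩ := hp
  obtain ⟨α', β', hq⟩ := hq
  rw [e1] at hp hq
  rw [mass, mass, e2] at h1 h2
  have herr : ∀ s ∈ Ico (v * 2 ^ (d + 1)) ((v + 1) * 2 ^ (d + 1)),
      |(p s - q s) - ((α - α') + (β - β') * s)| * 2 ^ (d + 1) ≤ 2 * τ := by
    intro s hs
    have a1 := hp s hs
    have a2 := hq s hs
    have a3 : |(p s - q s) - ((α - α') + (β - β') * s)| ≤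
        |p s - (α + β * s)| + |q s - (α' + β' * s)| := by
      have : (p s - q s) - ((α - α') + (β - β') * s) =
          (p s - (α + β * s)) - (q s - (α' + β' * s)) := by ring
      rw [this]
      exact abs_sub _ _
    have a4 : |(p s - q s) - ((α - α') + (β - β') * s)| * 2 ^ (d + 1) ≤
        (|p s - (α + β * s)| + |q s - (α' + β' * s)|) * 2 ^ (d + 1) := by gcongr
    linarith
  have hH := Nat.two_pow_pos d
  have hlo : ∀ s ∈ Ico (2 * v * 2 ^ d) ((2 * v + 1) * 2 ^ d),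
      s ∈ Ico (v * 2 ^ (d + 1)) ((v + 1) * 2 ^ (d + 1)) := by
    intro s hs
    rw [mem_Ico] at hs ⊢
    rw [pow_succ]
    constructor <;> nlinarith [hs.1, hs.2]
  have hhi : ∀ s ∈ Ico ((2 * v + 1) * 2 ^ d) ((2 * v + 1 + 1) * 2 ^ d),
      s ∈ Ico (v * 2 ^ (d + 1)) ((v + 1) * 2 ^ (d + 1)) := by
    intro s hs
    rw [mem_Ico] at hs ⊢
    rw [pow_succ]
    constructor <;> nlinarith [hs.1, hs.2]
  have b1 := half (p := p) (q := q) (d := d) (x := 2 * v) (A := α - α') (B := β - β') hξ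
    (fun s hs => herr s (hlo s hs)) h1
  have b2 := half (p := p) (q := q) (d := d) (x := 2 * v + 1) (A := α - α') (B := β - β') hξ
    (fun s hs => herr s (hhi s hs)) h2
  intro s hs
  have hs' := mem_Ico.1 hs
  obtain ⟨k, rfl⟩ := Nat.exists_eq_add_of_le hs'.1
  have hk : k ≤ 2 * 2 ^ d := by
    have h3 := hs'.2
    rw [pow_succ] at h3
    nlinarith
  have b3 := lin_bound (2 ^ d) ((2 * v * 2 ^ d : ℕ) : ℝ) (α - α') (β - β') τ (by
    exact b1) (by
      have e : ∀ i : ℕ, ((2 * v * 2 ^ d : ℕ) : ℝ) + ((2 ^ d : ℕ) : ℝ) + i =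
          (((2 * v + 1) * 2 ^ d : ℕ) : ℝ) + i := by
        intro i
        push_cast
        ring
      simp only [e]
      exact b2) k hk
  have b4 := herr _ hs
  have e5 : ((v * 2 ^ (d + 1) + k : ℕ) : ℝ) = ((2 * v * 2 ^ d : ℕ) : ℝ) + k := by
    push_cast
    ring
  rw [e5] at b4
  have hpow : (2 : ℝ) ^ (d + 1) = 2 * ((2 ^ d : ℕ) : ℝ) := by
    push_cast
    ring
  have b5 : |p (v * 2 ^ (d + 1) + k) - q (v * 2 ^ (d + 1) + k)| ≤
      |(p (v * 2 ^ (d + 1) + k) - q (v * 2 ^ (d + 1) + k)) -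
        ((α - α') + (β - β') * (((2 * v * 2 ^ d : ℕ) : ℝ) + k))| +
      |(α - α') + (β - β') * (((2 * v * 2 ^ d : ℕ) : ℝ) + k)| := by
    have := abs_add_le ((p (v * 2 ^ (d + 1) + k) - q (v * 2 ^ (d + 1) + k)) -
        ((α - α') + (β - β') * (((2 * v * 2 ^ d : ℕ) : ℝ) + k)))
        ((α - α') + (β - β') * (((2 * v * 2 ^ d : ℕ) : ℝ) + k))
    rwa [sub_add_cancel] at this
  have hpos : (0 : ℝ) < 2 ^ (d + 1) := by positivity
  have b6 := mul_le_mul_of_nonneg_right b5 hpos.le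
  have hn : (0 : ℝ) ≤ ((2 ^ d : ℕ) : ℝ) := Nat.cast_nonneg _
  rw [abs_mul, abs_of_nonneg hn] at b3
  have b7 : |(α - α') + (β - β') * (((2 * v * 2 ^ d : ℕ) : ℝ) + k)| * 2 ^ (d + 1) ≤ 20 * τ := by
    rw [hpow]
    nlinarith
  rw [add_mul] at b6
  linarith

lemma mem_nodes' {J j v : ℕ} (hj : j < J) (hv : v < 2 ^ j) : (j, v) ∈ nodes J := by
  rw [nodes, mem_filter, mem_product, mem_range, mem_range]
  exact ⟨⟨hj, hv.trans_le (Nat.pow_le_pow_right (by norm_num) hj.le)⟩, hv⟩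

lemma child {τ : ℝ} {J : ℕ} {p : ℕ → ℝ} {j v w : ℕ} (hj : j + 1 < J) (hv : v < 2 ^ j)
    (hB : Big2 τ J p j v) (hw : w = 2 * v ∨ w = 2 * v + 1) : (j + 1, w) ∈ key2 τ J p := by
  rw [key2, mem_filter]
  have hw' : w < 2 ^ (j + 1) := by
    rw [pow_succ]
    rcases hw with rfl | rfl <;> omega
  refine ⟨mem_nodes' hj hw', Or.inr (Or.inr ⟨(j, v), ?_, ?_⟩)⟩
  · rw [bigs2, mem_filter]
    exact ⟨mem_nodes' (by omega) hv, hB⟩
  · rcases hw with rfl | rfl
    · exact Or.inl rfl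
    · exact Or.inr rfl

lemma main {τ ξ : ℝ} {J : ℕ} {p q : ℕ → ℝ} (hξ : 0 ≤ ξ) (hξτ : ξ ≤ τ)
    (hpq : key2 τ J p = key2 τ J q)
    (hb : ∀ u ∈ key2 τ J p,
      |mass p J (u.1 + 1) (2 * u.2) - mass q J (u.1 + 1) (2 * u.2)| ≤ ξ ∧
      |mass p J (u.1 + 1) (2 * u.2 + 1) - mass q J (u.1 + 1) (2 * u.2 + 1)| ≤ ξ) :
    ∀ d j v : ℕ, j + d = J → v < 2 ^ j → (0 < d → (j, v) ∈ key2 τ J p) →
      TT (g2 (key2 τ J p) J p q) d j v ≤ TT (n2 (key2 τ J p)) d j v * (30 * τ) ^ 2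
  | 0, _, _, _, _, _ => by simp only [TT]; simp
  | d + 1, j, v, h, hv, hm => by
    have hτ : 0 ≤ τ := hξ.trans hξτ
    have hC : 0 ≤ (30 * τ) ^ 2 := by positivity
    have hnn : ∀ j v, 0 ≤ n2 (key2 τ J p) j v := fun j v => by rw [n2]; split_ifs <;> norm_num
    have hK := hm (Nat.succ_pos d)
    have hN1 := TT_nonneg hnn d (j + 1) (2 * v)
    have hN2 := TT_nonneg hnn d (j + 1) (2 * v + 1)
    obtain ⟨h1, h2⟩ := hb (j, v) hK
    have hn1 : n2 (key2 τ J p) j v = 1 := by rw [n2, if_pos hK]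
    have hg0 : g2 (key2 τ J p) J p q j v = 0 := by rw [g2, if_pos hK]
    by_cases hB : Big2 τ J p j v ∨ Big2 τ J q j v
    · have hc : ∀ w, w = 2 * v ∨ w = 2 * v + 1 → 0 < d → (j + 1, w) ∈ key2 τ J p := by
        intro w hw hd
        rcases hB with hB | hB
        · exact child (by omega) hv hB hw
        · rw [hpq]
          exact child (by omega) hv hB hw
      have h3 := main hξ hξτ hpq hb d (j + 1) (2 * v) (by omega) (by rw [pow_succ]; omega)
        (hc _ (Or.inl rfl))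
      have h4 := main hξ hξτ hpq hb d (j + 1) (2 * v + 1) (by omega) (by rw [pow_succ]; omega)
        (hc _ (Or.inr rfl))
      rw [TT, TT, hg0, hn1]
      nlinarith
    · push Not at hB
      have h3 := node (J := J) h hτ hξτ hB.1 hB.2 h1 h2
      have h4 := smallF (J := J) (p := p) (q := q) (d + 1) j v (30 * τ) h (by positivity) h3
      have h5 : TT (g2 (key2 τ J p) J p q) (d + 1) j v ≤ TT (gF J p q) (d + 1) j v := by
        refine TT_mono (fun j v => ?_) _ _ _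
        rw [g2]
        split_ifs
        · rw [gF]; positivity
        · exact le_rfl
      refine h5.trans (h4.trans ?_)
      rw [TT, hn1]
      nlinarith

end NormAux2

open NormAux2 in
/-- LC-NORM -/
theorem norm : S_norm2 := by
  intro J τ ξ p q hξ hξτ hpq hb
  have h1 := main hξ hξτ hpq hb J 0 0 (by omega) (by norm_num) (fun hJ => by
    rw [key2, mem_filter]
    exact ⟨mem_nodes' hJ (by norm_num), Or.inl rfl⟩)
  have e1 : TT (n2 (key2 τ J p)) J 0 0 = (key2 τ J p).card := by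
    rw [← TT_nodes]
    have e : ∑ u ∈ nodes J, n2 (key2 τ J p) u.1 u.2 =
        ∑ u ∈ nodes J, if u ∈ key2 τ J p then (1 : ℝ) else 0 :=
      sum_congr rfl fun u _ => by rw [n2]
    rw [e, sum_boole, filter_mem_eq_inter, inter_eq_right.2]
    rw [key2]
    exact filter_subset _ _
  have e2 : TT (g2 (key2 τ J p) J p q) J 0 0 = ∑ u ∈ nodes J \ key2 τ J p,
      ((mass p J (u.1 + 1) (2 * u.2) - mass q J (u.1 + 1) (2 * u.2)) ^ 2 +
        (mass p J (u.1 + 1) (2 * u.2 + 1) - mass q J (u.1 + 1) (2 * u.2 + 1)) ^ 2) := by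
    rw [← TT_nodes, sdiff_eq_filter, sum_filter]
    refine sum_congr rfl fun u _ => ?_
    rw [g2, gF]
    by_cases h : u ∈ key2 τ J p
    · rw [if_pos h, if_neg (not_not.2 h)]
    · rw [if_neg h, if_pos h]
  rw [← e1, ← e2]
  exact h1

end Pool.Agent.H36.LC.T
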