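import Pool.Agent.H36.LC.Stm

/-! # LC-POT: the potential argument (helper56) -/

set_option autoImplicit false

open Finset Filter Topology
open scoped Classical

namespace Pool.Agent.H36.LC.T

open Pool.Agent.H36.LC

namespace POTP

/-- counting by increments -/
lemma count (n : ℕ) (g : ℕ → ℝ) (q : ℕ → Prop) [DecidablePred q] (c M : ℝ) (hc : 0 < c)
    (hg : ∀ i, 0 ≤ g i) (hq : ∀ i, q i → c ≤ g i) (hM : ∑ i ∈ range n, g i ≤ M) :
    (((range n).filter q).card : ℝ) ≤ M / c := by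
  rw [le_div_iff₀ hc]
  calc (((range n).filter q).card : ℝ) * c = ∑ i ∈ (range n).filter q, c := by
        rw [Finset.sum_const, nsmul_eq_mul]
    _ ≤ ∑ i ∈ (range n).filter q, g i := Finset.sum_le_sum fun i hi => hq i (Finset.mem_filter.1 hi).2
    _ ≤ ∑ i ∈ range n, g i := Finset.sum_le_sum_of_subset_of_nonneg (Finset.filter_subset _ _)
        fun i _ _ => hg i
    _ ≤ M := hM

/-- large steps -/
lemma big {c s t : ℝ} (ht : 0 ≤ t) (hts : t ≤ s)
    (h : c ^ 2 * s ^ 2 < (s ^ 2 - t ^ 2) ^ 2) : c / 2 ≤ s - t := by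
  have hs : 0 ≤ s := ht.trans hts
  have hd : 0 ≤ s ^ 2 - t ^ 2 := by nlinarith
  have h1 : c * s < s ^ 2 - t ^ 2 := by
    apply lt_of_pow_lt_pow_left₀ 2 hd
    rw [mul_pow]
    exact h
  have hs0 : 0 < s := by
    rcases hs.eq_or_lt with h0 | h0
    · exfalso
      rw [← h0] at h1 hts
      have : t = 0 := le_antisymm hts ht
      rw [this] at h1
      simp at h1
    · exact h0
  have h2 : s ^ 2 - t ^ 2 ≤ 2 * s * (s - t) := by nlinarith
  have h3 : s * (c / 2) ≤ s * (s - t) := by nlinarith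
  exact le_of_mul_le_mul_left h3 hs0

/-- the potential is nondecreasing -/
lemma mono {c s t z : ℝ} (hc : 0 < c) (ht : 0 ≤ t) (hts : t ≤ s) (hz : z ≤ t ^ 2)
    (h : s ^ 2 * z ≤ (t ^ 2) ^ 2) :
    min ((s ^ 2 - t ^ 2) / c) s - 2 * s ≤ min ((t ^ 2 - z) / c) t - 2 * t := by
  have hs : 0 ≤ s := ht.trans hts
  obtain ⟨u, hu⟩ : ∃ u, u = (s ^ 2 - t ^ 2) / c := ⟨_, rfl⟩
  obtain ⟨w, hw⟩ : ∃ w, w = (t ^ 2 - z) / c := ⟨_, rfl⟩
  rw [← hu, ← hw]
  have hu0 : 0 ≤ u := by
    rw [hu]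
    apply div_nonneg _ hc.le
    nlinarith
  have hw0 : 0 ≤ w := by
    rw [hw]
    apply div_nonneg _ hc.le
    linarith
  have hsw : t ^ 2 * u ≤ s ^ 2 * w := by
    rw [hu, hw, ← mul_div_assoc, ← mul_div_assoc]
    apply div_le_div_of_nonneg_right _ hc.le
    nlinarith
  have h1 : min u s - 2 * s ≤ t - 2 * t := by
    have := min_le_right u s
    linarith
  have h2 : min u s - 2 * s ≤ w - 2 * t := by
    rcases hs.eq_or_lt with h0 | h0
    · have ht0 : t = 0 := by rw [← h0] at hts; exact le_antisymm hts ht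
      have := min_le_right u s
      rw [← h0, ht0]
      rw [← h0] at this
      linarith
    · have hs2 : 0 < s ^ 2 := by positivity
      apply le_of_mul_le_mul_left _ hs2
      rcases le_total u s with hus | hus
      · rw [min_eq_left hus]
        have h3 : u * (s + t) ≤ s * (s + s) := mul_le_mul hus (by linarith) (by linarith) hs
        nlinarith [mul_le_mul_of_nonneg_left h3 (by linarith : 0 ≤ s - t)]
      · rw [min_eq_right hus]
        have h3 : t ^ 2 * s ≤ t ^ 2 * u := mul_le_mul_of_nonneg_left hus (sq_nonneg t)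
        have h4 : 0 ≤ s * (s - t) ^ 2 := by positivity
        nlinarith
  rcases min_choice w t with h3 | h3
  · rw [h3]; exact h2
  · rw [h3]; exact h1

end POTP

open POTP in
theorem pot : S_pot := by
  intro P B θ n hθ hP0 hP1 hP2 hB
  obtain ⟨c, hc⟩ : ∃ c, c = √θ := ⟨_, rfl⟩
  obtain ⟨s, hs⟩ : ∃ s : ℕ → ℝ, s = fun i => √(P i) := ⟨_, rfl⟩
  have hc0 : 0 < c := by rw [hc]; exact Real.sqrt_pos.2 hθ
  have hc2 : c ^ 2 = θ := by rw [hc]; exact Real.sq_sqrt hθ.le
  have hs0 : ∀ i, 0 ≤ s i := fun i => by rw [hs]; exact Real.sqrt_nonneg _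
  have hs2 : ∀ i, s i ^ 2 = P i := fun i => by rw [hs]; exact Real.sq_sqrt (hP0 i)
  have hs1 : ∀ i, s (i + 1) ≤ s i := fun i => by rw [hs]; exact Real.sqrt_le_sqrt (hP1 i)
  have hB0 : 0 ≤ B := (hP0 0).trans hB
  have hsB0 : s 0 ≤ √B := by rw [hs]; exact Real.sqrt_le_sqrt hB
  have hsB1 : s 1 ≤ √B := (hs1 0).trans hsB0
  have hdiv : √(B / θ) = √B / c := by rw [hc]; exact Real.sqrt_div hB0 θ
  -- (a)
  have e1 : (((range n).filter fun i => θ * P i < (P i - P (i + 1)) ^ 2).card : ℝ) ≤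
      √B / (c / 2) := by
    refine count n (fun i => s i - s (i + 1)) _ (c / 2) (√B) (by positivity)
      (fun i => by linarith [hs1 i]) ?_ ?_
    · intro i hi
      apply big (hs0 (i + 1)) (hs1 i)
      rw [hc2, hs2, hs2]
      exact hi
    · rw [Finset.sum_range_sub']
      linarith [hs0 n]
  have e2 : (((range n).filter fun i => θ * P (i + 1) < (P (i + 1) - P (i + 2)) ^ 2).card : ℝ) ≤
      √B / (c / 2) := by
    refine count n (fun i => s (i + 1) - s (i + 1 + 1)) _ (c / 2) (√B) (by positivity)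
      (fun i => by linarith [hs1 (i + 1)]) ?_ ?_
    · intro i hi
      apply big (hs0 (i + 1 + 1)) (hs1 (i + 1))
      rw [hc2, hs2, hs2]
      exact hi
    · rw [Finset.sum_range_sub' (fun i => s (i + 1))]
      simp only [zero_add]
      linarith [hs0 (n + 1)]
  -- (b)
  obtain ⟨F, hF⟩ : ∃ F : ℕ → ℝ, F = fun i => min ((P i - P (i + 1)) / c) (s i) - 2 * s i := ⟨_, rfl⟩
  have hFm : ∀ i, F i ≤ F (i + 1) := by
    intro i
    rw [hF]
    have h1 := mono (c := c) (s := s i) (t := s (i + 1)) (z := P (i + 2)) hc0 (hs0 _) (hs1 i)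
      (by rw [hs2]; exact hP1 (i + 1)) (by rw [hs2, hs2]; exact hP2 i)
    rw [hs2, hs2] at h1
    exact h1
  have e3 : (((range n).filter fun i => (P i - P (i + 1)) ^ 2 ≤ θ * P i ∧
      (P (i + 1) - P (i + 2)) ^ 2 ≤ θ * P (i + 1) ∧
      θ < (P (i + 1) - P (i + 2)) - (P i - P (i + 1))).card : ℝ) ≤ 2 * √B / c := by
    refine count n (fun i => F (i + 1) - F i) _ c (2 * √B) hc0
      (fun i => by linarith [hFm i]) ?_ ?_
    · rintro i ⟨h1, h2, h3⟩
      have h4 : ∀ j, (P j - P (j + 1)) ^ 2 ≤ θ * P j → (P j - P (j + 1)) / c ≤ s j := by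
        intro j hj
        rw [div_le_iff₀ hc0]
        apply le_of_sq_le_sq _ (mul_nonneg (hs0 j) hc0.le)
        rw [mul_pow, hs2, hc2, mul_comm]
        exact hj
      rw [hF]
      simp only
      rw [min_eq_left (h4 i h1), min_eq_left (h4 (i + 1) h2)]
      have h5 : c ≤ (P (i + 1) - P (i + 1 + 1)) / c - (P i - P (i + 1)) / c := by
        rw [← sub_div, le_div_iff₀ hc0, ← sq, hc2]
        exact h3.le
      linarith [hs1 i]
    · rw [Finset.sum_range_sub]
      have h1 : F n ≤ 0 := by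
        rw [hF]
        have := min_le_right ((P n - P (n + 1)) / c) (s n)
        simp only
        linarith [hs0 n]
      have h2 : -(2 * √B) ≤ F 0 := by
        rw [hF]
        simp only
        have h3 : 0 ≤ min ((P 0 - P (0 + 1)) / c) (s 0) := by
          apply le_min _ (hs0 0)
          apply div_nonneg _ hc0.le
          linarith [hP1 0]
        linarith
      linarith
  have hsub : ((range n).filter fun i => ¬ ((P i - P (i + 1)) ^ 2 ≤ θ * P i ∧
      (P (i + 1) - P (i + 2)) ^ 2 ≤ θ * P (i + 1) ∧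
      (P (i + 1) - P (i + 2)) - (P i - P (i + 1)) ≤ θ)) ⊆
      ((range n).filter fun i => θ * P i < (P i - P (i + 1)) ^ 2) ∪
      ((range n).filter fun i => θ * P (i + 1) < (P (i + 1) - P (i + 2)) ^ 2) ∪
      ((range n).filter fun i => (P i - P (i + 1)) ^ 2 ≤ θ * P i ∧
        (P (i + 1) - P (i + 2)) ^ 2 ≤ θ * P (i + 1) ∧
        θ < (P (i + 1) - P (i + 2)) - (P i - P (i + 1))) := by
    intro i hi
    simp only [Finset.mem_union, Finset.mem_filter] at hi ⊢
    obtain ⟨hi1, hi2⟩ := hi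
    by_cases h1 : (P i - P (i + 1)) ^ 2 ≤ θ * P i
    · by_cases h2 : (P (i + 1) - P (i + 2)) ^ 2 ≤ θ * P (i + 1)
      · right
        refine ⟨hi1, h1, h2, ?_⟩
        by_contra h3
        exact hi2 ⟨h1, h2, not_lt.1 h3⟩
      · left; right
        exact ⟨hi1, not_le.1 h2⟩
    · left; left
      exact ⟨hi1, not_le.1 h1⟩
  have hcard := (Finset.card_le_card hsub).trans ((Finset.card_union_le _ _).trans
    (Nat.add_le_add_right (Finset.card_union_le _ _) _))
  have hcard' : (((range n).filter fun i => ¬ ((P i - P (i + 1)) ^ 2 ≤ θ * P i ∧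
      (P (i + 1) - P (i + 2)) ^ 2 ≤ θ * P (i + 1) ∧
      (P (i + 1) - P (i + 2)) - (P i - P (i + 1)) ≤ θ)).card : ℝ) ≤
      ((((range n).filter fun i => θ * P i < (P i - P (i + 1)) ^ 2).card : ℝ) +
      (((range n).filter fun i => θ * P (i + 1) < (P (i + 1) - P (i + 2)) ^ 2).card : ℝ)) +
      (((range n).filter fun i => (P i - P (i + 1)) ^ 2 ≤ θ * P i ∧
        (P (i + 1) - P (i + 2)) ^ 2 ≤ θ * P (i + 1) ∧
        θ < (P (i + 1) - P (i + 2)) - (P i - P (i + 1))).card : ℝ) := by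
    exact_mod_cast hcard
  refine hcard'.trans ?_
  rw [hdiv]
  have e4 : √B / (c / 2) = 2 * (√B / c) := by field_simp
  have e5 : 2 * √B / c = 2 * (√B / c) := by ring
  rw [e4] at e1 e2
  rw [e5] at e3
  linarith

end Pool.Agent.H36.LC.T
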