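import Pool.Agent.H36.LC.Stm

/-! LC-RIGHT (helper62) -/

set_option autoImplicit false

open Finset Filter Topology
open scoped Classical

namespace Pool.Agent.H36.LC.T

open Pool.Agent.H36.LC

theorem right : S_dev → S_pot → S_right := by
  intro hD hP p a L n B θ hL hθ hp hlc hanti hB
  have hpot := hP (fun i => p (a + i * L)) B θ n hθ (fun i => hp _)
    (fun i => hanti _ _ (Nat.le_add_right _ _)
      (Nat.add_le_add_left (Nat.mul_le_mul_right _ (Nat.le_succ i)) _))
    (fun i => by
      have h := hlc (a + i * L) (a + (i + 1) * L) (a + (i + 1) * L) (a + (i + 2) * L)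
        (Nat.add_le_add_left (Nat.mul_le_mul_right _ (Nat.le_succ i)) _)
        (Nat.add_le_add_left (Nat.mul_le_mul_right _ (Nat.le_succ i)) _) (by ring)
      rw [pow_two]
      exact h)
    (by
      have h : a + 0 * L = a := by ring
      show p (a + 0 * L) ≤ B
      rw [h]
      exact hB)
  refine le_trans ?_ hpot
  refine Nat.cast_le.2 (Finset.card_le_card fun i hi => ?_)
  rw [Finset.mem_filter] at hi ⊢
  refine ⟨hi.1, ?_⟩
  rintro ⟨h1, h2, h3⟩
  have e1 : a + (i + 1) * L = a + i * L + L := by ring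
  have e2 : a + (i + 2) * L = a + i * L + 2 * L := by ring
  simp only [e1, e2] at h1 h2 h3
  have hdev := hD p (a + i * L) L θ hL hθ.le hp hlc
    (fun s t hs hst => hanti s t (le_trans (Nat.le_add_right _ _) hs) hst) h1 h2 h3
  obtain ⟨k, hk, hlt⟩ := hi.2 (p (a + i * L + L))
    (-((p (a + i * L + L) - p (a + i * L + 2 * L)) / L))
  have h4 := hdev k hk
  rw [e1] at hlt
  have e3 : p (a + i * L + L) - (k : ℝ) / L * (p (a + i * L + L) - p (a + i * L + 2 * L)) =
      p (a + i * L + L) + -((p (a + i * L + L) - p (a + i * L + 2 * L)) / L) * k := by ring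
  rw [e3] at h4
  exact absurd hlt (not_lt.2 h4)

end Pool.Agent.H36.LC.T
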