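import Pool.Agent.H36.LC.Stm

set_option autoImplicit false

open Finset Filter Topology
open scoped Classical

namespace Pool.Agent.H36.LC.T

open Pool.Agent.H36.LC Pool.Agent.H36.BK Pool.Agent.H36.BK.LW Pool.Agent.H13R3.WB
  Pool.Agent.H931R3.Bal

open Pool.Agent.H36.BK.CoreAux in
/-- BK22 -/
theorem core (hfour : S_four) (huni : S_uni) (hfkg : S_fkg) (hcov : S_cov) (hdens : Pool.Agent.H36.BP.S_dens)
    (hind : S_ind) (hpair : S_pair) (hclu : S_clu2) (hlim : S_lim) : Pool.Agent.H36.LC.S_core := by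
  intro α _ _ κ A ε lam l D r hκ hA hAne hcard hε hε1 hD
    hlam hr hrl hlam3 hprob
  have hκ1 : (1 : ℝ) ≤ κ := by exact_mod_cast hκ
  obtain ⟨K, hK⟩ : ∃ K : ℝ, K = 2 ^ 14 * κ := ⟨_, rfl⟩
  rw [← hK] at hr hlam3 ⊢
  have hK1 : 1 ≤ K := by rw [hK]; nlinarith
  have hD0 : (0 : ℝ) < D := by exact_mod_cast hD
  have hκ0 : (0 : ℝ) < κ := by exact_mod_cast hκ
  obtain ⟨c, hc⟩ : ∃ c : ℝ, c = κ / D := ⟨_, rfl⟩
  have hc0 : 0 < c := by rw [hc]; positivity
  rw [← hc] at hlam3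
  -- the choice of `J`
  have hlim' : ∀ᶠ M : ℕ in atTop, ∀ x ∈ A, ∀ y ∈ A, x ≠ y → 3 / 2 * ε <
      |((cnt α M (fun f => f x < f y) : ℝ) - cnt α M (fun f => f y < f x)) / (Om α M).card| := by
    rw [Filter.eventually_all_finset]
    intro x hx
    rw [Filter.eventually_all_finset]
    intro y hy
    by_cases hxy : x = y
    · exact Eventually.of_forall fun M h => absurd hxy h
    · have h1 := (hlim α x y hxy).abs.eventually_const_lt (hprob x hx y hy hxy)
      filter_upwards [h1] with M hM _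
      exact hM
  have hev := (hcov α).and ((hdens α κ A hκ hA hAne hcard).and (hlim'.and (eventually_ge_atTop 2)))
  have h2J : Tendsto (fun J : ℕ => 2 ^ J) atTop atTop :=
    tendsto_pow_atTop_atTop_of_one_lt (by norm_num)
  obtain ⟨J, ⟨hcovJ, hdensJ, hlimJ, hM2⟩, hJl, hJr⟩ := ((h2J.eventually hev).and
    ((eventually_ge_atTop (3 * l + 1)).and (eventually_ge_atTop r))).exists
  obtain ⟨M, hMJ⟩ : ∃ M : ℕ, M = 2 ^ J := ⟨_, rfl⟩
  rw [← hMJ] at hcovJ hdensJ hlimJ hM2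
  have hM0 : (0 : ℝ) < M := by
    have : 0 < M := by omega
    exact_mod_cast this
  have hMc : (M : ℝ) = 2 ^ J := by rw [hMJ]; push_cast; rfl
  obtain ⟨T, hT⟩ : ∃ T, T = (Om α M).card := ⟨_, rfl⟩
  have hT0 : 0 < T := by rw [hT]; exact Om_pos (by omega)
  have hT0' : (0 : ℝ) < T := by exact_mod_cast hT0
  obtain ⟨G, hG⟩ : ∃ G : Finset α, G = A.filter fun x => ∀ j, Nx α M x j * M ≤
    2 ^ 14 * κ * (Om α M).card := ⟨_, rfl⟩
  rw [← hG] at hdensJ
  have hGA : ∀ x ∈ G, x ∈ A := fun x hx => by rw [hG] at hx; exact (mem_filter.1 hx).1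
  have hpmK : ∀ x ∈ G, ∀ j, pm α M x j ≤ K / M := by
    intro x hx j
    rw [hG] at hx
    have h1 := (mem_filter.1 hx).2 j
    have h2 : (Nx α M x j : ℝ) * M ≤ K * T := by rw [hK, hT]; exact_mod_cast h1
    rw [pm, ← hT, div_le_div_iff₀ hT0' hM0]
    exact h2
  -- the bad pairs
  obtain ⟨Bd, hBd⟩ : ∃ Bd : Finset (α × α), Bd = (G ×ˢ G).filter fun u => u.1 ≠ u.2 ∧
    c * (M : ℝ) ^ 2 * (T : ℝ) ^ 2 < HH α M u.1 u.2 := ⟨_, rfl⟩
  have hBd1 : (Bd.card : ℝ) * (c * (M : ℝ) ^ 2 * (T : ℝ) ^ 2) ≤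
      (Fintype.card α : ℝ) / 6 * (M : ℝ) ^ 2 * (T : ℝ) ^ 2 := by
    calc (Bd.card : ℝ) * (c * (M : ℝ) ^ 2 * (T : ℝ) ^ 2)
        = ∑ _u ∈ Bd, c * (M : ℝ) ^ 2 * (T : ℝ) ^ 2 := by rw [sum_const, nsmul_eq_mul]
      _ ≤ ∑ u ∈ Bd, HH α M u.1 u.2 := by
          apply sum_le_sum
          intro u hu
          rw [hBd] at hu
          exact (mem_filter.1 hu).2.2.le
      _ ≤ ∑ u : α × α, HH α M u.1 u.2 :=
          sum_le_sum_of_subset_of_nonneg (subset_univ _) fun u _ _ => HH_nonneg hfkg M u.1 u.2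
      _ = ∑ x : α, ∑ y : α, HH α M x y := Fintype.sum_prod_type _
      _ ≤ _ := by rw [hT]; exact hcovJ
  have hBd2 : Bd.card ≤ D * G.card := by
    have h1 : (Bd.card : ℝ) * c ≤ (Fintype.card α : ℝ) / 6 := by
      have h2 : 0 < (M : ℝ) ^ 2 * (T : ℝ) ^ 2 := by positivity
      refine le_of_mul_le_mul_right ?_ h2
      linarith
    have h3 : (Fintype.card α : ℝ) ≤ κ * A.card := by exact_mod_cast hcard
    have h4 : (A.card : ℝ) ≤ 6 * G.card := by exact_mod_cast hdensJ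
    have h5 : (Bd.card : ℝ) * (κ / D) ≤ κ * G.card := by
      rw [← hc]
      nlinarith
    have h6 : (Bd.card : ℝ) ≤ D * G.card := by
      rw [mul_div_assoc', div_le_iff₀ hD0] at h5
      refine le_of_mul_le_mul_right ?_ hκ0
      linarith
    exact_mod_cast h6
  obtain ⟨S, hSG, hS1, hS2⟩ := hind α G (fun x y => c * (M : ℝ) ^ 2 * (T : ℝ) ^ 2 < HH α M x y) D
    (fun x y h => by rw [HH_symm]; exact h) (by rw [hBd] at hBd2; exact hBd2)
  -- the masses
  have hunim : ∀ x, Unim (pm α M x) := by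
    intro x
    obtain ⟨m, h1, h2⟩ := huni α M x
    refine ⟨m, fun i j hij hj => ?_, fun i j hi hij => ?_⟩
    · have := h1 i j hij hj
      rw [pm, pm]
      gcongr
    · have := h2 i j hi hij
      rw [pm, pm]
      gcongr
  have hlcc : ∀ x, LCc (pm α M x) := by
    intro x a b c d hab hac habcd
    have h1 := hfour α M x a b c d hab hac habcd
    have h2 : (Nx α M x a : ℝ) * Nx α M x d ≤ Nx α M x b * Nx α M x c := by exact_mod_cast h1
    simp only [pm]
    rw [div_mul_div_comm, div_mul_div_comm]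
    gcongr
  have hr0 : (0 : ℝ) < 2 ^ r := by positivity
  have h2K : 2 * K / 2 ^ r ≤ ε / 4 := by
    rw [div_le_iff₀ hε] at hr
    rw [div_le_iff₀ hr0]
    linarith
  have hom : ∀ x ∈ S, ∀ y ∈ S, x ≠ y → ε ≤ |om (2 ^ J) (pm α M x) (pm α M y)| := by
    intro x hx y hy hxy
    have h1 := hpair α M (2 ^ r) (2 ^ (J - r)) x y K c lam hM2
      (by rw [hMJ, ← pow_add]; congr 1; omega) Nat.one_le_two_pow Nat.one_le_two_pow hK1 hc0.le
      (hpmK x (hSG hx)) (hpmK y (hSG hy)) (by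
        have := hS1 x hx y hy hxy
        rw [← hT]
        exact not_lt.1 this) hlam hlam3
    have h2 := hlimJ x (hGA x (hSG hx)) y (hGA y (hSG hy)) hxy
    rw [← hMJ]
    push_cast at h1
    obtain ⟨z, hz⟩ : ∃ z, z = ((cnt α M (fun f => f x < f y) : ℝ) - cnt α M (fun f => f y < f x)) /
      (Om α M).card := ⟨_, rfl⟩
    rw [← hz] at h1 h2
    have h3 : |z| ≤ |z - om M (pm α M x) (pm α M y)| + |om M (pm α M x) (pm α M y)| := by
      have := abs_add_le (z - om M (pm α M x) (pm α M y)) (om M (pm α M x) (pm α M y))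
      rwa [sub_add_cancel] at this
    linarith
  have hfin := hclu α S (fun x => pm α M x) J l K ε hJl hK1 hε hε1 (fun x hx => ⟨fun s => by
    rw [pm]; positivity, by rw [← hMJ]; exact sum_pm (by omega) x, fun s => by
      rw [← hMc]; exact hpmK x (hSG hx) s, hunim x, hlcc x⟩) hom
  have h1 : (A.card : ℝ) ≤ 12 * (2 * D + 1) * S.card := by
    have h2 : A.card ≤ 6 * (2 * (2 * D + 1) * S.card) := hdensJ.trans (by gcongr)
    have h3 : (A.card : ℝ) ≤ 6 * (2 * (2 * D + 1) * S.card) := by exact_mod_cast h2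
    linarith
  refine h1.trans ?_
  gcongr

end Pool.Agent.H36.LC.T
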