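import Pool.Agent.H36.LC.Stm

/-! LC-NUM (helper1), adapted from Pool/Agent/H36/BP/T/NUM.lean -/

set_option autoImplicit false

open Finset Filter Topology
open scoped Classical

namespace Pool.Agent.H36.LC.T

open Pool.Agent.H36.BK Pool.Agent.H36.BK.LW Pool.Agent.H13R3.WB Pool.Agent.H931R3.Bal

namespace NumAux

theorem clu_le (l : ℕ) (K ε a L : ℝ) (hK : 0 < K) (hε : 0 < ε) (ha : 1 ≤ a)
    (hL : a = Real.exp (L / 6)) (hεa : 1 / ε ≤ a ^ 6) (hKa : K ^ 2 / ε = a ^ 6) (h1 : a ≤ 2 ^ l)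
    (h2 : (2 : ℝ) ^ l ≤ 2 * a) (hL0 : 0 ≤ L) :
    clu2 l K ε ≤ Real.exp (10200 * a + 2100 * a * L + 3 + L + 1570800 * a) := by
  have ha0 : 0 < a := by linarith
  have hp2 : (0 : ℝ) < 2 ^ l := by positivity
  have height : (8 : ℝ) ^ l = 2 ^ l * 2 ^ l * 2 ^ l := by
    rw [← mul_pow, ← mul_pow]; norm_num
  have h32 : (32 : ℝ) ^ l = 2 ^ l * 2 ^ l * 2 ^ l * 2 ^ l * 2 ^ l := by
    rw [← mul_pow, ← mul_pow, ← mul_pow, ← mul_pow]; norm_num
  have h8a : (8 : ℝ) ^ l ≤ 8 * a ^ 3 := by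
    rw [height]
    calc (2 : ℝ) ^ l * 2 ^ l * 2 ^ l ≤ (2 * a) * (2 * a) * (2 * a) := by gcongr
      _ = 8 * a ^ 3 := by ring
  have h32a : a ^ 5 ≤ (32 : ℝ) ^ l := by
    rw [h32]
    calc a ^ 5 = a * a * a * a * a := by ring
      _ ≤ 2 ^ l * 2 ^ l * 2 ^ l * 2 ^ l * 2 ^ l := by gcongr
  have h8p : (0 : ℝ) < 8 ^ l := by positivity
  have ha6L : a ^ 6 = Real.exp L := by
    rw [hL, ← Real.exp_nat_mul]
    congr 1
    push_cast
    ring
  -- the base
  have hbase : 2 * (8 : ℝ) ^ l * (100 * 8 ^ l / ε + 1) ^ 2 + 1 ≤ Real.exp (17 + 21 * (L / 6)) := by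
    have e1 : 100 * (8 : ℝ) ^ l / ε ≤ 800 * a ^ 9 := by
      calc 100 * (8 : ℝ) ^ l / ε = 100 * 8 ^ l * (1 / ε) := by ring
        _ ≤ 100 * (8 * a ^ 3) * a ^ 6 := by gcongr
        _ = 800 * a ^ 9 := by ring
    have ha9 : 1 ≤ a ^ 9 := one_le_pow₀ ha
    have e2 : 100 * (8 : ℝ) ^ l / ε + 1 ≤ 801 * a ^ 9 := by linarith
    have e0 : 0 ≤ 100 * (8 : ℝ) ^ l / ε + 1 := by positivity
    have ha21 : 1 ≤ a ^ 21 := one_le_pow₀ ha
    have e3 : 2 * (8 : ℝ) ^ l * (100 * 8 ^ l / ε + 1) ^ 2 + 1 ≤ 2 ^ 24 * a ^ 21 := by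
      calc 2 * (8 : ℝ) ^ l * (100 * 8 ^ l / ε + 1) ^ 2 + 1
          ≤ 2 * (8 * a ^ 3) * (801 * a ^ 9) ^ 2 + a ^ 21 := by
            gcongr
        _ = 10265617 * a ^ 21 := by ring
        _ ≤ 2 ^ 24 * a ^ 21 := by
            refine mul_le_mul_of_nonneg_right (by norm_num) (by positivity)
    have e4 : (2 : ℝ) ^ 24 ≤ Real.exp 17 := by
      have h3 : (2 : ℝ) ^ 24 = Real.exp (24 * Real.log 2) := by
        rw [show (24 : ℝ) * Real.log 2 = ((24 : ℕ) : ℝ) * Real.log 2 by norm_num,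
          Real.exp_nat_mul, Real.exp_log (by norm_num)]
      rw [h3, Real.exp_le_exp]
      have := Real.log_two_lt_d9
      linarith
    calc _ ≤ 2 ^ 24 * a ^ 21 := e3
      _ ≤ Real.exp 17 * Real.exp (21 * (L / 6)) := by
          refine mul_le_mul e4 (le_of_eq ?_) (by positivity) (Real.exp_pos _).le
          rw [hL, ← Real.exp_nat_mul]
          norm_num
      _ = _ := by rw [← Real.exp_add]
  have hbase1 : 1 ≤ 2 * (8 : ℝ) ^ l * (100 * 8 ^ l / ε + 1) ^ 2 + 1 := by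
    have : 0 ≤ 2 * (8 : ℝ) ^ l * (100 * 8 ^ l / ε + 1) ^ 2 := by positivity
    linarith
  have hpow : (2 * (8 : ℝ) ^ l * (100 * 8 ^ l / ε + 1) ^ 2 + 1) ^ (300 * 2 ^ l) ≤
      Real.exp (10200 * a + 2100 * a * L) := by
    calc _ ≤ Real.exp (17 + 21 * (L / 6)) ^ (300 * 2 ^ l) :=
          pow_le_pow_left₀ (by linarith) hbase _
      _ = Real.exp (((300 * 2 ^ l : ℕ) : ℝ) * (17 + 21 * (L / 6))) :=
          (Real.exp_nat_mul _ _).symm
      _ ≤ Real.exp (10200 * a + 2100 * a * L) := by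
          rw [Real.exp_le_exp]
          push_cast
          have : 300 * (2 : ℝ) ^ l ≤ 600 * a := by linarith
          calc 300 * (2 : ℝ) ^ l * (17 + 21 * (L / 6)) ≤ 600 * a * (17 + 21 * (L / 6)) :=
                mul_le_mul_of_nonneg_right this (by linarith)
            _ = _ := by ring
  have hmid : 16 / ε + 1 ≤ Real.exp (3 + L) := by
    have hea : 1 / ε ≤ Real.exp L := by rw [← ha6L]; exact hεa
    have h1e : 1 ≤ Real.exp L := Real.one_le_exp hL0
    have h17 : (17 : ℝ) ≤ Real.exp 3 := by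
      have h := Real.exp_one_gt_d9
      have : Real.exp 3 = Real.exp 1 ^ 3 := by
        rw [← Real.exp_nat_mul]
        norm_num
      rw [this]
      calc (17 : ℝ) ≤ 2.7 ^ 3 := by norm_num
        _ ≤ Real.exp 1 ^ 3 := pow_le_pow_left₀ (by norm_num) (by linarith) 3
    calc 16 / ε + 1 = 16 * (1 / ε) + 1 := by ring
      _ ≤ 17 * Real.exp L := by linarith
      _ ≤ Real.exp 3 * Real.exp L := by gcongr
      _ = _ := (Real.exp_add _ _).symm
  have hlast : Real.exp (Real.pi * (500000 * K ^ 2 / (ε * 32 ^ l))) ≤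
      Real.exp (1570800 * a) := by
    rw [Real.exp_le_exp]
    have h32p : (0 : ℝ) < 32 ^ l := by positivity
    have e1 : K ^ 2 / (ε * 32 ^ l) ≤ a := by
      calc K ^ 2 / (ε * 32 ^ l) = (K ^ 2 / ε) / 32 ^ l := by field_simp
        _ = a ^ 6 / 32 ^ l := by rw [hKa]
        _ ≤ a := by
            rw [div_le_iff₀ h32p]
            calc a ^ 6 = a * a ^ 5 := by ring
              _ ≤ a * 32 ^ l := by gcongr
    have hpi : Real.pi * 500000 ≤ 1570800 := by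
      have := Real.pi_lt_d4
      linarith
    calc Real.pi * (500000 * K ^ 2 / (ε * 32 ^ l)) =
          (Real.pi * 500000) * (K ^ 2 / (ε * 32 ^ l)) := by
          ring
      _ ≤ 1570800 * a := by gcongr
  unfold clu2
  calc _ ≤ Real.exp (10200 * a + 2100 * a * L) * Real.exp (3 + L) *
        Real.exp (1570800 * a) := by
        gcongr
    _ = _ := by
        rw [← Real.exp_add, ← Real.exp_add]
        congr 1
        ring

end NumAux

theorem num : S_num := by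
  intro κ w ε hκ hε hε2 hw
  have hκ1 : (1 : ℝ) ≤ κ := by exact_mod_cast hκ
  set K : ℝ := 2 ^ 14 * κ with hK
  have hK1 : (2 : ℝ) ^ 14 ≤ K := by rw [hK]; linarith
  have hK0 : 0 < K := by positivity
  have hKκ : (κ : ℝ) ≤ K := by rw [hK]; linarith
  have hK1' : 1 ≤ K := by linarith
  set L : ℝ := Real.log (K ^ 2 / ε) with hL
  have hKε1 : 1 ≤ K ^ 2 / ε := by
    rw [le_div_iff₀ hε]
    nlinarith
  have hL0 : 0 ≤ L := Real.log_nonneg hKε1
  have hεL : K ^ 2 / ε = Real.exp L := (Real.exp_log (by positivity)).symm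
  set a : ℝ := Real.exp (L / 6) with ha
  have ha1 : 1 ≤ a := Real.one_le_exp (by positivity)
  have ha0 : 0 < a := by linarith
  have ha6 : K ^ 2 / ε = a ^ 6 := by
    rw [hεL, ha, ← Real.exp_nat_mul]
    congr 1
    push_cast
    ring
  have hεa6 : 1 / ε ≤ a ^ 6 := by
    rw [← ha6]
    exact div_le_div_of_nonneg_right (by nlinarith) hε.le
  set G : ℝ := Real.log (2 * (κ : ℝ) ^ 2 / ε) with hG
  have hlog2 : 0.6931471803 < Real.log 2 := Real.log_two_gt_d9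
  have hlog2' : Real.log 2 < 0.6931471808 := Real.log_two_lt_d9
  have hGL : L = 27 * Real.log 2 + G := by
    rw [hG, hL]
    have e1 : K ^ 2 / ε = 2 ^ 27 * (2 * (κ : ℝ) ^ 2 / ε) := by rw [hK]; ring
    rw [e1, Real.log_mul (by norm_num) (by positivity), Real.log_pow]
    norm_num
  have hG2 : 2 * Real.log 2 ≤ G := by
    have e1 : 2 * Real.log 2 = Real.log 4 := by
      rw [show (4 : ℝ) = 2 ^ 2 by norm_num, Real.log_pow]
      norm_num
    rw [e1]
    refine Real.log_le_log (by norm_num) ?_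
    rw [le_div_iff₀ hε]
    nlinarith
  set b : ℝ := ((κ : ℝ) ^ 2 / ε) ^ (1 / 6 : ℝ) with hb
  have hb0 : 0 < b := by positivity
  have hab : a ≤ 2 ^ 5 * b := by
    have e1 : a = (K ^ 2 / ε) ^ (1 / 6 : ℝ) := by
      rw [Real.rpow_def_of_pos (by positivity), ha, hL]
      congr 1
      ring
    have e2 : K ^ 2 / ε ≤ 2 ^ 30 * ((κ : ℝ) ^ 2 / ε) := by
      have e3 : K ^ 2 / ε = 2 ^ 28 * ((κ : ℝ) ^ 2 / ε) := by rw [hK]; ring
      rw [e3]
      have : 0 ≤ (κ : ℝ) ^ 2 / ε := by positivity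
      gcongr <;> norm_num
    calc a = (K ^ 2 / ε) ^ (1 / 6 : ℝ) := e1
      _ ≤ (2 ^ 30 * ((κ : ℝ) ^ 2 / ε)) ^ (1 / 6 : ℝ) :=
        Real.rpow_le_rpow (by positivity) e2 (by norm_num)
      _ = 2 ^ 5 * b := by
        rw [Real.mul_rpow (by positivity) (by positivity)]
        congr 1
        rw [show (2 : ℝ) ^ 30 = (2 ^ 5) ^ 6 by norm_num, ← Real.rpow_natCast,
          ← Real.rpow_mul (by positivity)]
        norm_num
  -- `l`
  obtain ⟨l, hl1, hl2⟩ : ∃ l : ℕ, a ≤ 2 ^ l ∧ (2 : ℝ) ^ l ≤ 2 * a := by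
    obtain ⟨n, hn1, hn2⟩ := exists_nat_pow_near ha1 (by norm_num : (1 : ℝ) < 2)
    exact ⟨n + 1, hn2.le, by rw [pow_succ]; linarith⟩
  -- `r`
  obtain ⟨r, hr1, hr2⟩ : ∃ r : ℕ, 8 * K / ε ≤ 2 ^ r ∧ (2 : ℝ) ^ r ≤ 16 * K / ε := by
    have h8 : 1 ≤ 8 * K / ε := by
      rw [le_div_iff₀ hε]
      linarith
    obtain ⟨n, hn1, hn2⟩ := exists_nat_pow_near h8 (by norm_num : (1 : ℝ) < 2)
    refine ⟨n + 1, hn2.le, ?_⟩
    rw [pow_succ]
    calc (2 : ℝ) ^ n * 2 ≤ 8 * K / ε * 2 := by gcongr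
      _ = 16 * K / ε := by ring
  set Y : ℝ := K ^ 5 * κ / ε ^ 6 with hY
  have hY1 : 1 ≤ Y := by
    rw [hY, le_div_iff₀ (by positivity)]
    have h1 : 1 ≤ K ^ 5 := one_le_pow₀ (by linarith)
    have h2 : ε ^ 6 ≤ 1 := pow_le_one₀ hε.le (by linarith)
    nlinarith
  have hY0 : 0 < Y := by linarith
  refine ⟨l, ⌈2 ^ 34 * Y⌉₊, r, ε ^ 2 / (768 * K), ?_, by positivity, hr1, ?_, ?_, ?_⟩
  · exact Nat.one_le_ceil_iff.2 (by positivity)
  · calc 12 * (2 : ℝ) ^ r * (ε ^ 2 / (768 * K)) ≤ 12 * (16 * K / ε) * (ε ^ 2 / (768 * K)) := by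
          gcongr
      _ = ε / 4 := by
          field_simp
          ring
  · have hD : 2 ^ 34 * Y ≤ (⌈2 ^ 34 * Y⌉₊ : ℝ) := Nat.le_ceil _
    have hp : 0 < 2 ^ 34 * Y := by positivity
    calc 32 * K ^ 2 * ((κ : ℝ) / ⌈2 ^ 34 * Y⌉₊) ≤ 32 * K ^ 2 * ((κ : ℝ) / (2 ^ 34 * Y)) := by
          gcongr
      _ = 32 / 2 ^ 34 * (ε ^ 6 / K ^ 3) := by
          rw [hY]
          field_simp
      _ ≤ 1 / 768 ^ 3 * (ε ^ 6 / K ^ 3) := by
          refine mul_le_mul_of_nonneg_right (by norm_num) (by positivity)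
      _ = (ε ^ 2 / (768 * K)) ^ 3 := by
          field_simp
  · have hD : (⌈2 ^ 34 * Y⌉₊ : ℝ) < 2 ^ 34 * Y + 1 := Nat.ceil_lt_add_one (by positivity)
    have hclu := NumAux.clu_le l K ε a L hK0 hε ha1 ha hεa6 ha6 hl1 hl2 hL0
    have hclu0 : 0 < clu2 l K ε := by
      unfold clu2
      positivity
    have hYe : 2 ^ 40 * Y ≤ Real.exp (40 + 6 * L) := by
      have h1 : (2 : ℝ) ^ 40 ≤ Real.exp 40 := by exact_mod_cast BK23.two_pow_le 40
      have h2 : Y ≤ Real.exp (6 * L) := by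
        have e1 : Real.exp (6 * L) = (K ^ 2 / ε) ^ 6 := by
          rw [hεL, ← Real.exp_nat_mul]
          norm_num
        rw [e1, hY, div_pow, ← pow_mul]
        refine div_le_div_of_nonneg_right ?_ (by positivity)
        calc K ^ 5 * κ ≤ K ^ 5 * K := by gcongr
          _ = K ^ 6 := by ring
          _ ≤ K ^ (2 * 6) := pow_le_pow_right₀ hK1' (by norm_num)
      calc 2 ^ 40 * Y ≤ Real.exp 40 * Real.exp (6 * L) := mul_le_mul h1 h2 hY0.le (Real.exp_pos _).le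
        _ = _ := (Real.exp_add _ _).symm
    have h12 : 12 * (2 * (⌈2 ^ 34 * Y⌉₊ : ℝ) + 1) ≤ 2 ^ 40 * Y := by
      nlinarith
    calc 12 * (2 * (⌈2 ^ 34 * Y⌉₊ : ℝ) + 1) * clu2 l K ε
        ≤ Real.exp (40 + 6 * L) *
          Real.exp (10200 * a + 2100 * a * L + 3 + L + 1570800 * a) :=
          mul_le_mul (h12.trans hYe) hclu hclu0.le (Real.exp_pos _).le
      _ = Real.exp (40 + 6 * L + (10200 * a + 2100 * a * L + 3 + L + 1570800 * a)) :=
          (Real.exp_add _ _).symm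
      _ < Real.exp (2 ^ 26 * b * G) := by
          rw [Real.exp_lt_exp]
          have e2 : 40 + 6 * L + (10200 * a + 2100 * a * L + 3 + L + 1570800 * a) ≤
              a * (1581043 + 2107 * L) := by
            have g1 : 0 ≤ (a - 1) * (43 + 7 * L) :=
              mul_nonneg (by linarith) (by positivity)
            nlinarith [g1]
          refine e2.trans_lt ?_
          have e3 : (1581043 + 2107 * L) < 2 ^ 21 * G := by
            rw [hGL]
            nlinarith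
          have e4 : 2 ^ 26 * b * G = 2 ^ 5 * b * (2 ^ 21 * G) := by ring
          rw [e4]
          have e5 : 0 ≤ 1581043 + 2107 * L := by positivity
          calc a * (1581043 + 2107 * L) ≤ (2 ^ 5 * b) * (1581043 + 2107 * L) :=
                mul_le_mul_of_nonneg_right hab e5
            _ < 2 ^ 5 * b * (2 ^ 21 * G) := mul_lt_mul_of_pos_left e3 (by positivity)
      _ ≤ w := hw

end Pool.Agent.H36.LC.T
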