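import Pool.Agent.H36.LC.T.Final

/-!
# Project LC: growth, with the examples of `PolylogarithmicRate`
-/

set_option autoImplicit false

open Finset Filter Topology
open scoped Classical

namespace Pool.Agent.H36.LC.T

open Pool.Agent.H13R3.WB Pool.Agent.H931R3.Bal
open Pool.Agent.H36.BK (dR dR_bdd dR_nonempty dR_nonneg dR_le nonempty_of_width S_ex)

lemma ev_log : ∀ᶠ L : ℝ in atTop, (2 ^ 30 * 511) ^ 6 * Real.log L ^ 6 < L := by
  have h := (Real.isLittleO_pow_log_id_atTop (n := 6)).bound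
    (show (0 : ℝ) < 1 / (2 * (2 ^ 30 * 511) ^ 6) by positivity)
  filter_upwards [h, eventually_gt_atTop 1] with L h1 h2
  have h3 : (0 : ℝ) ≤ Real.log L ^ 6 := by positivity
  rw [Real.norm_of_nonneg h3, id, Real.norm_of_nonneg (by linarith : (0 : ℝ) ≤ L),
    div_mul_eq_mul_div, one_mul, le_div_iff₀ (by positivity)] at h1
  linarith

/-- with `L = log w`, `X = log v ≥ L^511`: `(L^2)^2 (2^30 log X / X)^6 < 1 / L^3061` -/
lemma ev_num : ∀ᶠ L : ℝ in atTop, ∀ X : ℝ, L ^ 511 ≤ X →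
    (L ^ 2) ^ 2 * (2 ^ 30 * (Real.log X / X)) ^ 6 < 1 / L ^ 3061 := by
  filter_upwards [ev_log, eventually_ge_atTop (Real.exp 1)] with L h1 h2 X hX
  have he : (1 : ℝ) < Real.exp 1 := by
    have := Real.exp_one_gt_d9
    linarith
  have hL1 : 1 < L := by linarith
  have hL0 : 0 < L := by linarith
  have h3 : Real.exp 1 ≤ L ^ 511 := h2.trans (le_self_pow₀ hL1.le (by norm_num))
  have h4 : Real.log X / X ≤ Real.log (L ^ 511) / L ^ 511 :=
    Real.log_div_self_antitoneOn h3 (h3.trans hX : Real.exp 1 ≤ X) hX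
  have hX0 : 0 < X := by linarith
  have hX1 : 1 ≤ X := by linarith
  have h5 : 0 ≤ Real.log X / X := div_nonneg (Real.log_nonneg hX1) hX0.le
  rw [Real.log_pow] at h4
  have h6 : (2 ^ 30 * (Real.log X / X)) ^ 6 ≤
      (2 ^ 30 * (((511 : ℕ) : ℝ) * Real.log L / L ^ 511)) ^ 6 := by
    apply pow_le_pow_left₀ (by positivity)
    exact mul_le_mul_of_nonneg_left h4 (by positivity)
  have h7 : (L ^ 2) ^ 2 * (2 ^ 30 * (((511 : ℕ) : ℝ) * Real.log L / L ^ 511)) ^ 6 =
      ((2 ^ 30 * 511) ^ 6 * Real.log L ^ 6) / L ^ 3062 := by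
    rw [mul_div_assoc', div_pow, ← pow_mul, mul_div_assoc', div_eq_div_iff (by positivity)
      (by positivity)]
    push_cast
    ring
  have h8 : ((2 ^ 30 * 511) ^ 6 * Real.log L ^ 6) / L ^ 3062 < 1 / L ^ 3061 := by
    rw [div_lt_div_iff₀ (by positivity) (by positivity), one_mul]
    have : L ^ 3062 = L * L ^ 3061 := by ring
    rw [this]
    exact mul_lt_mul_of_pos_right h1 (by positivity)
  calc (L ^ 2) ^ 2 * (2 ^ 30 * (Real.log X / X)) ^ 6
      ≤ (L ^ 2) ^ 2 * (2 ^ 30 * (((511 : ℕ) : ℝ) * Real.log L / L ^ 511)) ^ 6 :=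
        mul_le_mul_of_nonneg_left h6 (by positivity)
    _ = ((2 ^ 30 * 511) ^ 6 * Real.log L ^ 6) / L ^ 3062 := h7
    _ < _ := h8

/-- growth with the examples of `PolylogarithmicRate` -/
theorem grow (hT : Pool.Agent.H36.LC.S_thm)
    (hM : ∃ w₀ : ℕ, ∀ w : ℕ, w₀ ≤ w → ∃ (P : Type) (_ : Fintype P) (_ : PartialOrder P),
      Fintype.card P ≤ 2 * w ∧ HasWidth P w ∧ balance P ≤ 1 / 2 - 1 / Real.log w ^ 3061) :
    ∃ w₁ : ℕ, ∀ κ₀ w : ℕ, 2 ≤ κ₀ → w₁ ≤ w →
      dR κ₀ w ≤ 1 / 2 - 1 / Real.log w ^ 3061 ∧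
      (∀ (P : Type) [Fintype P] [PartialOrder P] (A : Finset P),
        IsAntichain (· ≤ ·) (A : Set P) → Real.exp (Real.log w ^ 511) ≤ A.card →
        (Fintype.card P : ℝ) ≤ A.card * Real.log w ^ 2 → dR κ₀ w < balance P) ∧
      (∀ κ v : ℕ, 1 ≤ κ → (κ : ℝ) ≤ Real.log w ^ 2 → Real.exp (Real.log w ^ 511) ≤ v →
        dR κ₀ w < dR κ v) := by
  obtain ⟨w₀, hw₀⟩ := hM
  have hlog : Tendsto (fun w : ℕ => Real.log w) atTop atTop :=
    Real.tendsto_log_atTop.comp tendsto_natCast_atTop_atTop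
  obtain ⟨w₁, hw₁⟩ := eventually_atTop.1 ((hlog.eventually ev_num).and
    ((eventually_ge_atTop w₀).and ((hlog.eventually (eventually_ge_atTop 4)).and
      (eventually_ge_atTop 1))))
  refine ⟨w₁, fun κ₀ w hκ₀ hw => ?_⟩
  obtain ⟨h1, h2, h3, h4⟩ := hw₁ w hw
  have hb : dR κ₀ w ≤ 1 / 2 - 1 / Real.log w ^ 3061 := by
    obtain ⟨P, i1, i2, e1, e2, e3⟩ := hw₀ w h2
    exact le_trans (csInf_le (dR_bdd κ₀ w h4)
      ⟨P, i1, i2, e1.trans (Nat.mul_le_mul_right _ hκ₀), e2, rfl⟩) e3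
  have hcard : ∀ v : ℕ, Real.exp (Real.log w ^ 511) ≤ v →
      16 ≤ v ∧ Real.log w ^ 511 ≤ Real.log v := by
    intro v hv
    have hv0 : (0 : ℝ) < v := (Real.exp_pos _).trans_le hv
    have e1 : Real.log w ^ 511 ≤ Real.log v := (Real.le_log_iff_exp_le hv0).2 hv
    refine ⟨?_, e1⟩
    have e2 : (4 : ℝ) ≤ Real.log w ^ 511 := h3.trans (le_self_pow₀ (by linarith) (by norm_num))
    have e3 : Real.exp 4 ≤ v := (Real.exp_le_exp.2 e2).trans hv
    have e4 : (16 : ℝ) ≤ Real.exp 4 := by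
      have e5 : (2 : ℝ) ≤ Real.exp 1 := by
        have := Real.exp_one_gt_d9
        linarith
      have e6 : Real.exp 4 = Real.exp 1 ^ 4 := by
        rw [← Real.exp_nat_mul]
        norm_num
      rw [e6]
      calc (16 : ℝ) = 2 ^ 4 := by norm_num
        _ ≤ Real.exp 1 ^ 4 := pow_le_pow_left₀ (by norm_num) e5 4
    have e7 : (16 : ℝ) ≤ v := e4.trans e3
    exact_mod_cast e7
  refine ⟨hb, fun P _ _ A hA hAc hP => ?_, fun κ v hκ hκ2 hv => ?_⟩
  · obtain ⟨g1, g2⟩ := hcard A.card hAc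
    have g3 := gen hT P A hA g1
    have g4 := h1 (Real.log A.card) g2
    have hA0 : (0 : ℝ) < A.card := by
      have : 0 < A.card := by omega
      exact_mod_cast this
    have g5 : (Fintype.card P : ℝ) / A.card ≤ Real.log w ^ 2 := by
      rw [div_le_iff₀ hA0]
      linarith
    have g6 : ((Fintype.card P : ℝ) / A.card) ^ 2 *
        (2 ^ 30 * (Real.log (Real.log A.card) / Real.log A.card)) ^ 6 ≤
        (Real.log w ^ 2) ^ 2 *
        (2 ^ 30 * (Real.log (Real.log A.card) / Real.log A.card)) ^ 6 := by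
      have : 0 ≤ (2 ^ 30 * (Real.log (Real.log A.card) / Real.log A.card)) ^ 6 :=
        Even.pow_nonneg (by decide) _
      exact mul_le_mul_of_nonneg_right (pow_le_pow_left₀ (by positivity) g5 2) this
    linarith
  · obtain ⟨g1, g2⟩ := hcard v hv
    have g3 := rate hT κ v hκ g1
    have g4 := h1 (Real.log v) g2
    have g6 : (κ : ℝ) ^ 2 * (2 ^ 29 * (Real.log (Real.log v) / Real.log v)) ^ 6 ≤
        (Real.log w ^ 2) ^ 2 * (2 ^ 30 * (Real.log (Real.log v) / Real.log v)) ^ 6 := by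
      have e1 : (2 ^ 29 * (Real.log (Real.log v) / Real.log v)) ^ 6 ≤
          (2 ^ 30 * (Real.log (Real.log v) / Real.log v)) ^ 6 := by
        have e2 : (2 ^ 30 * (Real.log (Real.log v) / Real.log v)) ^ 6 =
          64 * (2 ^ 29 * (Real.log (Real.log v) / Real.log v)) ^ 6 := by ring
        have e3 : 0 ≤ (2 ^ 29 * (Real.log (Real.log v) / Real.log v)) ^ 6 :=
          Even.pow_nonneg (by decide) _
        linarith
      exact mul_le_mul (pow_le_pow_left₀ (by positivity) hκ2 2) e1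
        (Even.pow_nonneg (by decide) _) (by positivity)
    linarith

end Pool.Agent.H36.LC.T
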